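import Pool.Agent.Lib.MP_6b2d39_agVs.FillL
import Pool.Agent.Lib.MP_6b2d39_agUe.BigM

/-!
The exact arrangement, all scales, for long rows.

PROOF. The proofs of `ar_mv` (`Ve/ArMV.lean`) and `ar_v` (`Ve/ArV.lean`), with `fill_l` instead of `fill_v` and `big_m` with `B = 2 A + 2` (the rows
`c < 2 A + 2` do not change, so `h4` of `fill_l` holds for the new demands). Strong induction on `∑ i ∈ J, m i` (for all `m`). All `m j ≤ A`:
`2 A + 2 ≤ T` from `h0`, `fill_l` with `D = R`, `y = T`. Otherwise `j` with the largest `m j > A`: (a) `∑ R + m j ≤ ms m J`: lower `m j` by one;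
(b) otherwise `m j ≤ T ≤ z` and `v0 = ∑ R - ms m J ≥ -z`; `J' = {m i ≤ A}`, `O = {A < m i}`: `big_m` needs `(2 A + 2 + m j) z ≤ v0 + ms m {m i < m j}`
(`hm` with `k = m j - 1`), and `∑ D' = v0 + ms m J' ≥ (2 A + 2) z` (`hm` with `k = A`).
-/

set_option autoImplicit false

namespace Pool.Agent.Lib.MP_6b2d39_agVs

open Pool.Agent.Lib.MP_6b2d39_agArr Pool.Agent.Lib.MP_6b2d39_agUn Pool.Agent.Lib.MP_6b2d39_agUe

private theorem arl_rows {Q T : ℕ} {R : ℕ → ℤ} (hQ : 2 ≤ Q) (hT : 1 ≤ T)
    (hR3 : ∀ c, c + 1 < T → (Q : ℤ) ≤ 2 * (R c - R (c + 1))) (hR4 : 1 ≤ R (T - 1)) :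
    (T : ℤ) ≤ R 0 ∧ ∀ c, c < T → R c ≤ R 0 := by
  have hQ2 : (2 : ℤ) ≤ Q := by exact_mod_cast hQ
  have hstep : ∀ c, c + 1 < T → R (c + 1) + 1 ≤ R c := by
    intro c hc
    have := hR3 c hc
    linarith
  have hle : ∀ c, c < T → R c + c ≤ R 0 := by
    intro c
    induction c with
    | zero => intro _; simp
    | succ c ih =>
      intro hc
      have h1 := ih (by omega)
      have h2 := hstep c hc
      push_cast
      linarith
  refine ⟨?_, fun c hc => ?_⟩
  · have h1 := hle (T - 1) (by omega)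
    have h2 : ((T - 1 : ℕ) : ℤ) = (T : ℤ) - 1 := by
      rw [Nat.cast_sub hT]
      simp
    rw [h2] at h1
    linarith
  · have h1 := hle c hc
    have h2 : (0 : ℤ) ≤ c := by positivity
    linarith

private theorem arl_mono {ι : Type} {m m' : ι → ℕ} {J : Finset ι} {n : ℕ} {D : ℕ → ℤ}
    (h : ∀ j ∈ J, m' j ≤ m j) (hC : Cert m' J n D) : Cert m J n D := by
  obtain ⟨e, p, he⟩ := hC
  refine ⟨e, p, fun b hb => (he b hb).trans (Finset.sum_le_sum fun j hj => ?_)⟩
  have h1 : m' j - rk n e (p j) b ≤ m j - rk n e (p j) b := Nat.sub_le_sub_right (h j hj) _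
  exact_mod_cast h1

private theorem arl_tri (a : ℕ) (ha : 1 ≤ a) :
    ((a * (a + 1) / 2 : ℕ) : ℤ) = (((a - 1) * ((a - 1) + 1) / 2 : ℕ) : ℤ) + a := by
  obtain ⟨b, rfl⟩ : ∃ b, a = b + 1 := ⟨a - 1, by omega⟩
  have h1 : (b + 1) * (b + 1 + 1) / 2 = b * (b + 1) / 2 + (b + 1) := by
    have h2 : (b + 1) * (b + 1 + 1) = b * (b + 1) + (b + 1) * 2 := by ring
    rw [h2, Nat.add_mul_div_right _ _ (by norm_num)]
  have h3 : b + 1 - 1 = b := by omega
  rw [h3, h1]
  push_cast
  ring

private theorem arl_msub {ι : Type} [DecidableEq ι] {m : ι → ℕ} {J J' : Finset ι} (h : J ⊆ J') :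
    ms m J ≤ ms m J' :=
  Finset.sum_le_sum_of_subset_of_nonneg h fun _ _ _ => by positivity

private theorem arl_aux {ι : Type} [DecidableEq ι] {A z Q T : ℕ} {R : ℕ → ℤ} {J : Finset ι}
    (hA : 1 ≤ A) (hQ : 8 ≤ Q) (hz : 1 ≤ z) (hT : 1 ≤ T)
    (hR0 : R 0 ≤ z) (hR1 : ∀ c < A, R c - R (c + 1) = Q)
    (hR3 : ∀ c, c + 1 < T → (Q : ℤ) ≤ 2 * (R c - R (c + 1))) (hR4 : 1 ≤ R (T - 1))
    (hL : ∀ c ≤ 2 * A + 1, 9 * (A : ℤ) ^ 2 + 2 * A ≤ R c)
    (h0 : (2 * (A : ℤ) + 3) * z ≤ ∑ c ∈ Finset.range T, R c) (n : ℕ) :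
    ∀ m : ι → ℕ, ∑ i ∈ J, m i = n →
    ∑ c ∈ Finset.range T, R c ≤ ms m J →
    (∀ k : ℕ, A ≤ k → (∃ j ∈ J, k < m j) →
      (2 * (A : ℤ) + 4 + k) * z ≤ ms m (J.filter (fun i => m i ≤ k))) →
    Cert m J T R := by
  have hz0 : (0 : ℤ) < z := by exact_mod_cast hz
  have hQ8 : (8 : ℤ) ≤ Q := by exact_mod_cast hQ
  obtain ⟨hT0, hle⟩ := arl_rows (by omega) hT hR3 hR4
  have hsumT : ∑ c ∈ Finset.range T, R c ≤ T * z := by
    have := Finset.sum_le_card_nsmul (Finset.range T) R z
      fun c hc => (hle c (Finset.mem_range.1 hc)).trans hR0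
    rwa [Finset.card_range, nsmul_eq_mul] at this
  induction n using Nat.strong_induction_on with
  | _ n ih =>
  intro m hn hs hm
  by_cases hall : ∀ j ∈ J, m j ≤ A
  · have hy : 2 * A + 3 ≤ T := by
      have h2 : (2 * (A : ℤ) + 3) * z ≤ T * z := h0.trans hsumT
      have h3 : 2 * (A : ℤ) + 3 ≤ T := le_of_mul_le_mul_right h2 hz0
      exact_mod_cast h3
    refine fill_l (A := A) (Q := Q) hA (by omega) hall hR1 (fun b hb => ?_) hR4 hL hs
    have h1 := hR3 b hb
    linarith
  · push Not at hall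
    obtain ⟨j0, hj0, hj0A⟩ := hall
    obtain ⟨j, hj, hmax⟩ := Finset.exists_max_image J m ⟨j0, hj0⟩
    have hjA : A < m j := lt_of_lt_of_le hj0A (hmax j0 hj0)
    by_cases hbig : ∑ c ∈ Finset.range T, R c + m j ≤ ms m J
    · -- lower the multiplicity of `j`
      have hne : ∀ i, i ≠ j → Function.update m j (m j - 1) i = m i := fun i hi => by
        simp [Function.update_of_ne hi]
      have heq : Function.update m j (m j - 1) j = m j - 1 := by simp
      have hle' : ∀ i, Function.update m j (m j - 1) i ≤ m i := by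
        intro i
        by_cases hi : i = j
        · subst hi
          rw [heq]
          omega
        · rw [hne i hi]
      have hsum : ∑ i ∈ J, Function.update m j (m j - 1) i < n := by
        rw [← hn]
        refine Finset.sum_lt_sum (fun i _ => hle' i) ⟨j, hj, ?_⟩
        rw [heq]
        omega
      have hms : ms (Function.update m j (m j - 1)) J = ms m J - m j := by
        unfold ms
        rw [← Finset.add_sum_erase J _ hj, ← Finset.add_sum_erase J _ hj, heq]
        have h1 := arl_tri (m j) (by omega)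
        have h2 : ∑ x ∈ J.erase j, (((Function.update m j (m j - 1) x) *
            ((Function.update m j (m j - 1) x) + 1) / 2 : ℕ) : ℤ) =
            ∑ x ∈ J.erase j, ((m x * (m x + 1) / 2 : ℕ) : ℤ) := by
          refine Finset.sum_congr rfl fun x hx => ?_
          rw [hne x (Finset.ne_of_mem_erase hx)]
        rw [h2, h1]
        ring
      refine arl_mono (m' := Function.update m j (m j - 1)) (fun i _ => hle' i)
        (ih _ hsum _ rfl ?_ ?_)
      · rw [hms]
        linarith
      · rintro k hk ⟨j', hj', hkj'⟩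
        have h1 : k < m j' := lt_of_lt_of_le hkj' (hle' j')
        have h2 : k < m j := lt_of_lt_of_le h1 (hmax j' hj')
        refine (hm k hk ⟨j', hj', h1⟩).trans ?_
        have h3 : ms m (J.filter (fun i => m i ≤ k)) =
            ms (Function.update m j (m j - 1)) (J.filter (fun i => m i ≤ k)) := by
          unfold ms
          refine Finset.sum_congr rfl fun x hx => ?_
          have h4 : x ≠ j := by
            rintro rfl
            have := (Finset.mem_filter.1 hx).2
            omega
          rw [hne x h4]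
        rw [h3]
        refine arl_msub fun x hx => ?_
        rw [Finset.mem_filter] at hx ⊢
        exact ⟨hx.1, (hle' x).trans hx.2⟩
    · push Not at hbig
      have h1 := hm (m j - 1) (by omega) ⟨j, hj, by omega⟩
      have h2 : ms m (J.filter (fun i => m i ≤ m j - 1)) + ((m j * (m j + 1) / 2 : ℕ) : ℤ) ≤
          ms m J := by
        have h3 : j ∉ J.filter (fun i => m i ≤ m j - 1) := by
          intro h
          have := (Finset.mem_filter.1 h).2
          omega
        have h4 : ms m (insert j (J.filter (fun i => m i ≤ m j - 1))) ≤ ms m J := by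
          refine arl_msub fun x hx => ?_
          rcases Finset.mem_insert.1 hx with rfl | hx
          · exact hj
          · exact (Finset.mem_filter.1 hx).1
        unfold ms at h4 ⊢
        rw [Finset.sum_insert h3] at h4
        linarith
      have h5 : (m j : ℤ) ≤ ((m j * (m j + 1) / 2 : ℕ) : ℤ) := by
        have h6 := arl_tri (m j) (by omega)
        have h7 : (0 : ℤ) ≤ (((m j - 1) * ((m j - 1) + 1) / 2 : ℕ) : ℤ) := by positivity
        linarith
      have hcast : ((m j - 1 : ℕ) : ℤ) = (m j : ℤ) - 1 := by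
        rw [Nat.cast_sub (by omega)]
        simp
      have h8 : (2 * (A : ℤ) + 3 + m j) * z < T * z := by
        rw [hcast] at h1
        have h9 : (2 * (A : ℤ) + 4 + ((m j : ℤ) - 1)) * z = (2 * (A : ℤ) + 3 + m j) * z := by
          ring
        rw [h9] at h1
        linarith
      have h10 : 2 * (A : ℤ) + 3 + m j < T := lt_of_mul_lt_mul_right h8 hz0.le
      have hA0 : (0 : ℤ) ≤ A := by positivity
      have h11 : (m j : ℤ) ≤ z := by linarith
      have hJO : J.filter (fun i => m i ≤ A) ∪ J.filter (fun i => A < m i) = J := by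
        ext x
        simp only [Finset.mem_union, Finset.mem_filter]
        constructor
        · rintro (h | h)
          · exact h.1
          · exact h.1
        · intro h
          rcases Nat.lt_or_ge A (m x) with h' | h'
          · exact Or.inr ⟨h, h'⟩
          · exact Or.inl ⟨h, h'⟩
      have hdis : Disjoint (J.filter (fun i => m i ≤ A)) (J.filter (fun i => A < m i)) := by
        rw [Finset.disjoint_left]
        intro x hx hx'
        have a1 := (Finset.mem_filter.1 hx).2
        have a2 := (Finset.mem_filter.1 hx').2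
        omega
      obtain ⟨y, D, hyT, hI, hS, hC⟩ := big_m (R := R) (m := m)
        (v0 := ∑ c ∈ Finset.range T, R c - ms m J) (B := 2 * A + 2) (z := z) (Q := Q)
        hQ hz (by omega) (J := J.filter (fun i => m i ≤ A)) (J.filter (fun i => A < m i)) hdis
        (fun j' hj' => by
          obtain ⟨hj'J, hj'A⟩ := Finset.mem_filter.1 hj'
          have h12 := hm (m j' - 1) (by omega) ⟨j', hj'J, by omega⟩
          have hcast' : ((m j' - 1 : ℕ) : ℤ) = (m j' : ℤ) - 1 := by
            rw [Nat.cast_sub (by omega)]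
            simp
          rw [hcast'] at h12
          have h13 : (2 * (A : ℤ) + 4 + ((m j' : ℤ) - 1)) * z =
              (((2 * A + 2 : ℕ) : ℤ) + m j') * z + z := by
            push_cast
            ring
          rw [h13] at h12
          have h14 : ms m (J.filter (fun i => m i ≤ m j' - 1)) ≤
              ms m (J.filter (fun i => m i ≤ A) ∪
                (J.filter (fun i => A < m i)).filter (fun i => m i < m j')) := by
            refine arl_msub fun x hx => ?_
            obtain ⟨hxJ, hx1⟩ := Finset.mem_filter.1 hx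
            simp only [Finset.mem_union, Finset.mem_filter]
            rcases Nat.lt_or_ge A (m x) with h' | h'
            · exact Or.inr ⟨⟨hxJ, h'⟩, by omega⟩
            · exact Or.inl ⟨hxJ, h'⟩
          linarith) T R
        ⟨fun _ _ => rfl, hR3, hT, hR4, hR0, by rw [hJO]; ring⟩
      rw [hJO] at hC
      have hle2 : ∀ c, c < y → D c ≤ z := by
        intro c
        induction c with
        | zero => intro _; exact hI.e4
        | succ c ihc =>
          intro hc
          have h12 := ihc (by omega)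
          have h13 := hI.e1 c hc
          linarith
      have h12 := hm A le_rfl ⟨j, hj, hjA⟩
      have hy : 2 * A + 2 ≤ y := by
        have h13 : ∑ c ∈ Finset.range y, D c ≤ y * z := by
          have := Finset.sum_le_card_nsmul (Finset.range y) D z
            fun c hc => hle2 c (Finset.mem_range.1 hc)
          rwa [Finset.card_range, nsmul_eq_mul] at this
        have h14 : (2 * (A : ℤ) + 2) * z ≤ y * z := by
          rw [hI.e5] at h13
          have h15 : (2 * (A : ℤ) + 4 + A) * z = (2 * (A : ℤ) + 2) * z + z + ((A : ℤ) + 1) * z := by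
            ring
          have h16 : 0 ≤ ((A : ℤ) + 1) * z := by positivity
          linarith
        have h15 : 2 * (A : ℤ) + 2 ≤ y := le_of_mul_le_mul_right h14 hz0
        exact_mod_cast h15
      refine hC (fill_l (A := A) (Q := Q) hA hy (fun i hi => (Finset.mem_filter.1 hi).2)
        (fun b hb => ?_) (fun b hb => ?_) hI.e3 (fun b hb => ?_) ?_)
      · rw [hI.e0 b (by omega), hI.e0 (b + 1) (by omega)]
        exact hR1 b hb
      · have h13 := hI.e1 b hb
        linarith
      · rw [hI.e0 b (by omega)]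
        exact hL b hb
      · rw [hI.e5]
        linarith

theorem ar_l {ι : Type} [DecidableEq ι] {A z Q T : ℕ} {R : ℕ → ℤ} {m : ι → ℕ} {J : Finset ι}
    (hA : 1 ≤ A) (hQ : 8 ≤ Q) (hz : 1 ≤ z) (hT : 1 ≤ T)
    (hR0 : R 0 ≤ z) (hR1 : ∀ c < A, R c - R (c + 1) = Q)
    (hR3 : ∀ c, c + 1 < T → (Q : ℤ) ≤ 2 * (R c - R (c + 1))) (hR4 : 1 ≤ R (T - 1))
    (hL : ∀ c ≤ 2 * A + 1, 9 * (A : ℤ) ^ 2 + 2 * A ≤ R c)
    (h0 : (2 * (A : ℤ) + 3) * z ≤ ∑ c ∈ Finset.range T, R c)
    (hs : ∑ c ∈ Finset.range T, R c ≤ ms m J)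
    (hm : ∀ k : ℕ, A ≤ k → (∃ j ∈ J, k < m j) →
      (2 * (A : ℤ) + 4 + k) * z ≤ ms m (J.filter (fun i => m i ≤ k))) :
    Cert m J T R :=
  arl_aux hA hQ hz hT hR0 hR1 hR3 hR4 hL h0 _ m rfl hs hm

end Pool.Agent.Lib.MP_6b2d39_agVs
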