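import Pool.Agent.Lib.MP_6b2d39_agVx.BoxX
import Pool.Agent.Lib.MP_6b2d39_agU2.EarlyM
import Pool.Agent.Lib.MP_6b2d39_agStd.Sorting

/-!
The arrangement outside of the window, all scales.

PROOF of `ar_nm`. Strong induction on `∑ i ∈ J, m i` (for all `m`). Let `j ∈ J` have the largest `m j` (`m j ≥ 1`, since `ms m J ≥ W + ∑ R > 0`).
(a) `∑ R + W + m j ≤ ms m J`: lower `m j` by one (`Function.update`), `hm` is preserved (as in `ar_v`, `Ve/ArV.lean`), a `Cert` for `m' ≤ m` is one for `m`.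
(b) Otherwise `ms m J < ∑ R + W + m j`. (b1) `m j ≤ A`: `box_neg` with `v0 = ∑ R - ms m J`. (b2) `m j > A`, `k = m j - 1 ≥ A`: `60 k z ≤ ms m {m i ≤ k}
≤ ms m J - m j (m j + 1) / 2 < ∑ R + W ≤ (T + A) z` (`W ≤ 7 A ^ 2`, `z ≥ 128 A Q ≥ 1024 A`), so `m j < T ≤ R 0 = z` and `v0 = ∑ R - ms m J ≥ -A z - z`.
`P = {m i ≤ A}`, `O = {A < m i}`; `L = ∑ R + W - ms m O ≥ 0`, `L ≤ ms m P`; `exists_reduce` (`Std/Sorting.lean`) for `P`, `M := A`, `T := L` gives `m'' ≤ m`,
`m'' = m` outside of `P`, `ms m'' P = L + w`, `w < A`, so `v0'' = ∑ R - ms m'' J` satisfies `-(W + A) ≤ v0'' ≤ -W`. For `j' ∈ O`: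
`v0'' + ms m'' ((P ∪ O).filter (m'' i < m'' j')) = ∑ R - ms m {i ∈ O | m j' ≤ m i} = v0 + ms m {m i ≤ m j' - 1} ≥ (60 (m j' - 1) - A - 1) z ≥
(3 A + 1 + m j') z`: `early_dec` (`U2/EarlyM.lean`) with `B = 3 A + 1`, `Z = ∅`: new rows `D'`, `y'`, `Inv … P`; they satisfy `RwA A z Q y' D'`
(`a0`, `a1` from `e0`; `a5`: `∑ D' = v0'' + ms m'' P = ∑ R - ms m O = v0 + ms m P ≥ 60 A z - A z - z ≥ 32 A z`); `box_neg` for `m''`, `P`, `D'`.
PROOF of `ar_pm`. If all `m j ≤ A`: `box_pos`. Otherwise `P`, `O` as above, `v0 = Z.card ≥ 0`, `early_dec` with `B = 3 A + 1` and `Z`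
(`60 (m j - 1) z ≥ (3 A + 1 + m j) z`), then `box_pos` for `P`, `Z`, `D'` (`a5` from `hm` with `k = A`).
-/

set_option autoImplicit false

namespace Pool.Agent.Lib.MP_6b2d39_agVs

open Pool.Agent.Lib.MP_6b2d39_agArr Pool.Agent.Lib.MP_6b2d39_agUn Pool.Agent.Lib.MP_6b2d39_agUv
  Pool.Agent.Lib.MP_6b2d39_agU2 Pool.Agent.Lib.MP_6b2d39_agVx

variable {ι : Type} [DecidableEq ι]

private theorem arn_num {M z Q W : ℕ} (h : BoxX M z Q W) :
    8 ≤ Q ∧ 128 * M * Q ≤ z ∧ W ≤ 7 * M ^ 2 := by
  rcases h with ⟨X, h⟩ | ⟨X, Y, h⟩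
  · exact ⟨h.hQ, h.hz, h.hW4⟩
  · exact ⟨h.hQ, h.hz, h.hW4⟩

private theorem arn_rows {Q T : ℕ} {R : ℕ → ℤ} (hQ : 2 ≤ Q) (hT : 1 ≤ T)
    (hR3 : ∀ c, c + 1 < T → (Q : ℤ) ≤ 2 * (R c - R (c + 1))) (hR4 : 1 ≤ R (T - 1)) :
    (T : ℤ) ≤ R 0 ∧ ∀ c, c < T → R c ≤ R 0 := by
  have hQ2 : (2 : ℤ) ≤ Q := by exact_mod_cast hQ
  have hstep : ∀ c, c + 1 < T → R (c + 1) + 1 ≤ R c := by
    intro c hc
    have := hR3 c hc
    linarith
  have hle : ∀ c, c < T → R c + c ≤ R 0 := by
    intro c
    induction c with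
    | zero => intro _; simp
    | succ c ih =>
      intro hc
      have h1 := ih (by omega)
      have h2 := hstep c hc
      push_cast
      linarith
  refine ⟨?_, fun c hc => ?_⟩
  · have h1 := hle (T - 1) (by omega)
    have h2 : ((T - 1 : ℕ) : ℤ) = (T : ℤ) - 1 := by
      rw [Nat.cast_sub hT]
      simp
    rw [h2] at h1
    linarith
  · have h1 := hle c hc
    have h2 : (0 : ℤ) ≤ c := by positivity
    linarith

omit [DecidableEq ι] in
private theorem arn_mono {m m' : ι → ℕ} {J : Finset ι} {n : ℕ} {D : ℕ → ℤ}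
    (h : ∀ j ∈ J, m' j ≤ m j) (hC : Cert m' J n D) : Cert m J n D := by
  obtain ⟨e, p, he⟩ := hC
  refine ⟨e, p, fun b hb => (he b hb).trans (Finset.sum_le_sum fun j hj => ?_)⟩
  have h1 : m' j - rk n e (p j) b ≤ m j - rk n e (p j) b := Nat.sub_le_sub_right (h j hj) _
  exact_mod_cast h1

private theorem arn_tri (a : ℕ) (ha : 1 ≤ a) :
    ((a * (a + 1) / 2 : ℕ) : ℤ) = (((a - 1) * ((a - 1) + 1) / 2 : ℕ) : ℤ) + a := by
  obtain ⟨b, rfl⟩ : ∃ b, a = b + 1 := ⟨a - 1, by omega⟩
  have h1 : (b + 1) * (b + 1 + 1) / 2 = b * (b + 1) / 2 + (b + 1) := by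
    have h2 : (b + 1) * (b + 1 + 1) = b * (b + 1) + (b + 1) * 2 := by ring
    rw [h2, Nat.add_mul_div_right _ _ (by norm_num)]
  have h3 : b + 1 - 1 = b := by omega
  rw [h3, h1]
  push_cast
  ring

private theorem arn_le (a : ℕ) : (a : ℤ) ≤ ((a * (a + 1) / 2 : ℕ) : ℤ) := by
  rcases Nat.eq_zero_or_pos a with h | h
  · subst h
    simp
  · have h1 := arn_tri a h
    have h2 : (0 : ℤ) ≤ (((a - 1) * ((a - 1) + 1) / 2 : ℕ) : ℤ) := by positivity
    linarith

omit [DecidableEq ι] in
private theorem arn_msub {m : ι → ℕ} {J J' : Finset ι} (h : J ⊆ J') : ms m J ≤ ms m J' :=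
  Finset.sum_le_sum_of_subset_of_nonneg h fun _ _ _ => by positivity

omit [DecidableEq ι] in
private theorem arn_ms (m : ι → ℕ) (J : Finset ι) :
    ms m J = ((∑ j ∈ J, (m j + 1).choose 2 : ℕ) : ℤ) := by
  unfold ms
  push_cast
  refine Finset.sum_congr rfl fun j _ => ?_
  rw [Nat.choose_two_right]
  have h1 : (m j + 1) * (m j + 1 - 1) = m j * (m j + 1) := by
    rw [Nat.add_sub_cancel]
    ring
  rw [h1]
  push_cast
  rfl

private theorem arn_split (m : ι → ℕ) (J : Finset ι) (A : ℕ) :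
    J.filter (fun i => m i ≤ A) ∪ J.filter (fun i => A < m i) = J ∧
    Disjoint (J.filter (fun i => m i ≤ A)) (J.filter (fun i => A < m i)) := by
  constructor
  · ext x
    simp only [Finset.mem_union, Finset.mem_filter]
    constructor
    · rintro (h | h)
      · exact h.1
      · exact h.1
    · intro h
      rcases Nat.lt_or_ge A (m x) with h' | h'
      · exact Or.inr ⟨h, h'⟩
      · exact Or.inl ⟨h, h'⟩
  · rw [Finset.disjoint_left]
    intro x hx hx'
    have a1 := (Finset.mem_filter.1 hx).2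
    have a2 := (Finset.mem_filter.1 hx').2
    omega

private theorem arn_msum {m : ι → ℕ} {P O : Finset ι} (h : Disjoint P O) :
    ms m (P ∪ O) = ms m P + ms m O := Finset.sum_union h

omit [DecidableEq ι] in
private theorem arn_rw {R : ℕ → ℤ} {m : ι → ℕ} {v0 : ℤ} {A z Q : ℕ} {J : Finset ι}
    {T y : ℕ} {D : ℕ → ℤ} (hR : RwA A z Q T R) (h : Inv R m v0 (3 * A + 1) z Q J y D)
    (h5 : 32 * (A : ℤ) * z ≤ ∑ c ∈ Finset.range y, D c) : RwA A z Q y D :=
  ⟨by rw [h.e0 0 (by omega), hR.a0], fun c hc => by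
    rw [h.e0 c (by omega), h.e0 (c + 1) (by omega)]
    exact hR.a1 c hc, h.e1, h.e3, h.e2, h5⟩

private theorem arn_aux {A z Q W T : ℕ} (h : BoxX A z Q W) {R : ℕ → ℤ} (hR : RwA A z Q T R)
    {J : Finset ι} (n : ℕ) : ∀ m : ι → ℕ, ∑ i ∈ J, m i = n →
    (∀ k : ℕ, A ≤ k → (∃ j ∈ J, k < m j) →
      60 * (k : ℤ) * z ≤ ms m (J.filter (fun i => m i ≤ k))) →
    ∑ c ∈ Finset.range T, R c + W ≤ ms m J → Cert m J T R := by
  obtain ⟨hQ, hz, hW⟩ := arn_num h
  have hA : 1 ≤ A := h.hM
  have hz1 : 1024 * A ≤ z := by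
    have h1 : 128 * A * 8 ≤ 128 * A * Q := Nat.mul_le_mul_left _ hQ
    linarith
  have hzz : 1 ≤ z := by omega
  have hz0 : (0 : ℤ) < z := by exact_mod_cast hzz
  have hAz : (1 : ℤ) ≤ A := by exact_mod_cast hA
  have hz1z : 1024 * (A : ℤ) ≤ z := by exact_mod_cast hz1
  have hWz : (W : ℤ) ≤ A * z := by
    have h1 : (W : ℤ) ≤ 7 * (A : ℤ) ^ 2 := by exact_mod_cast hW
    have h2 : (A : ℤ) * (1024 * A) ≤ A * z := mul_le_mul_of_nonneg_left hz1z (by linarith)
    have h3 : (0 : ℤ) ≤ (A : ℤ) ^ 2 := by positivity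
    have h4 : (A : ℤ) * (1024 * A) = 1024 * (A : ℤ) ^ 2 := by ring
    linarith
  obtain ⟨hT0, hle⟩ := arn_rows (by omega) hR.a4 hR.a2 hR.a3
  rw [hR.a0] at hT0 hle
  have hsumT : ∑ c ∈ Finset.range T, R c ≤ T * z := by
    have := Finset.sum_le_card_nsmul (Finset.range T) R z
      fun c hc => (hle c (Finset.mem_range.1 hc))
    rwa [Finset.card_range, nsmul_eq_mul] at this
  have h32 := hR.a5
  have hpos : (0 : ℤ) < 32 * A * z := by positivity
  induction n using Nat.strong_induction_on with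
  | _ n ih =>
  intro m hn hm hs
  have hW0 : (0 : ℤ) ≤ W := by positivity
  have hJne : J.Nonempty := by
    rw [Finset.nonempty_iff_ne_empty]
    rintro rfl
    have h1 : ms m (∅ : Finset ι) = 0 := Finset.sum_empty
    rw [h1] at hs
    linarith
  obtain ⟨j, hj, hmax⟩ := Finset.exists_max_image J m hJne
  have hj1 : 1 ≤ m j := by
    by_contra h0
    have h1 : ms m J = 0 := by
      refine Finset.sum_eq_zero fun i hi => ?_
      have h2 := hmax i hi
      have h3 : m i = 0 := by omega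
      rw [h3]
      simp
    rw [h1] at hs
    linarith
  by_cases hbig : ∑ c ∈ Finset.range T, R c + W + m j ≤ ms m J
  · -- lower the multiplicity of `j`
    have hne : ∀ i, i ≠ j → Function.update m j (m j - 1) i = m i := fun i hi => by
      simp [Function.update_of_ne hi]
    have heq : Function.update m j (m j - 1) j = m j - 1 := by simp
    have hle' : ∀ i, Function.update m j (m j - 1) i ≤ m i := by
      intro i
      by_cases hi : i = j
      · subst hi
        rw [heq]
        omega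
      · rw [hne i hi]
    have hsum : ∑ i ∈ J, Function.update m j (m j - 1) i < n := by
      rw [← hn]
      refine Finset.sum_lt_sum (fun i _ => hle' i) ⟨j, hj, ?_⟩
      rw [heq]
      omega
    have hms : ms (Function.update m j (m j - 1)) J = ms m J - m j := by
      unfold ms
      rw [← Finset.add_sum_erase J _ hj, ← Finset.add_sum_erase J _ hj, heq]
      have h1 := arn_tri (m j) (by omega)
      have h2 : ∑ x ∈ J.erase j, (((Function.update m j (m j - 1) x) *
          ((Function.update m j (m j - 1) x) + 1) / 2 : ℕ) : ℤ) =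
          ∑ x ∈ J.erase j, ((m x * (m x + 1) / 2 : ℕ) : ℤ) := by
        refine Finset.sum_congr rfl fun x hx => ?_
        rw [hne x (Finset.ne_of_mem_erase hx)]
      rw [h2, h1]
      ring
    refine arn_mono (m' := Function.update m j (m j - 1)) (fun i _ => hle' i)
      (ih _ hsum _ rfl ?_ ?_)
    · rintro k hk ⟨j', hj', hkj'⟩
      have h1 : k < m j' := lt_of_lt_of_le hkj' (hle' j')
      have h2 : k < m j := lt_of_lt_of_le h1 (hmax j' hj')
      refine (hm k hk ⟨j', hj', h1⟩).trans ?_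
      have h3 : ms m (J.filter (fun i => m i ≤ k)) =
          ms (Function.update m j (m j - 1)) (J.filter (fun i => m i ≤ k)) := by
        unfold ms
        refine Finset.sum_congr rfl fun x hx => ?_
        have h4 : x ≠ j := by
          rintro rfl
          have := (Finset.mem_filter.1 hx).2
          omega
        rw [hne x h4]
      rw [h3]
      refine arn_msub fun x hx => ?_
      rw [Finset.mem_filter] at hx ⊢
      exact ⟨hx.1, (hle' x).trans hx.2⟩
    · rw [hms]
      linarith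
  · push Not at hbig
    obtain ⟨hJO, hdis⟩ := arn_split m J A
    by_cases hjA : m j ≤ A
    · -- all the multiplicities are at most `A`
      have hjAz : (m j : ℤ) ≤ A := by exact_mod_cast hjA
      exact box_neg h hR (fun i hi => (hmax i hi).trans hjA)
        (v0 := ∑ c ∈ Finset.range T, R c - ms m J) (by ring) (by linarith) (by linarith)
    · have hjA' : A < m j := not_le.1 hjA
      have hcast : ((m j - 1 : ℕ) : ℤ) = (m j : ℤ) - 1 := by
        rw [Nat.cast_sub hj1]
        simp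
      have h1 := hm (m j - 1) (by omega) ⟨j, hj, by omega⟩
      have h2 : ms m (J.filter (fun i => m i ≤ m j - 1)) + ((m j * (m j + 1) / 2 : ℕ) : ℤ) ≤
          ms m J := by
        have h3 : j ∉ J.filter (fun i => m i ≤ m j - 1) := by
          intro h
          have := (Finset.mem_filter.1 h).2
          omega
        have h4 : ms m (insert j (J.filter (fun i => m i ≤ m j - 1))) ≤ ms m J := by
          refine arn_msub fun x hx => ?_
          rcases Finset.mem_insert.1 hx with rfl | hx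
          · exact hj
          · exact (Finset.mem_filter.1 hx).1
        unfold ms at h4 ⊢
        rw [Finset.sum_insert h3] at h4
        linarith
      have h5 := arn_le (m j)
      have hjz : (m j : ℤ) ≤ z := by
        rw [hcast] at h1
        have h6 : 60 * ((m j : ℤ) - 1) * z < ((T : ℤ) + A) * z := by
          have h7 : ((T : ℤ) + A) * z = T * z + A * z := by ring
          rw [h7]
          linarith
        have h8 : 60 * ((m j : ℤ) - 1) < (T : ℤ) + A := lt_of_mul_lt_mul_right h6 hz0.le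
        have h9 : (A : ℤ) + 1 ≤ m j := by exact_mod_cast hjA'
        linarith
      have hv0 : -((A : ℤ) * z) - z ≤ ∑ c ∈ Finset.range T, R c - ms m J := by linarith
      set P := J.filter (fun i => m i ≤ A) with hP
      set O := J.filter (fun i => A < m i) with hO
      have hPO : ms m J = ms m P + ms m O := by
        rw [← arn_msum hdis, hJO]
      have hPA : 60 * (A : ℤ) * z ≤ ms m P := hm A le_rfl ⟨j, hj, hjA'⟩
      have hAzz : (z : ℤ) ≤ A * z := by
        have h6 : (1 : ℤ) * z ≤ A * z := mul_le_mul_of_nonneg_right hAz hz0.le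
        linarith
      have h60 : 60 * (A : ℤ) * z = 60 * (A * z) := by ring
      -- the number `L`
      obtain ⟨L, hL⟩ : ∃ L : ℕ, (L : ℤ) = ∑ c ∈ Finset.range T, R c + W - ms m O := by
        refine ⟨(∑ c ∈ Finset.range T, R c + W - ms m O).toNat, ?_⟩
        rw [Int.toNat_of_nonneg]
        rw [h60] at hPA
        linarith
      have hLP : L ≤ ∑ j ∈ P, (m j + 1).choose 2 := by
        have h6 : (L : ℤ) ≤ ((∑ j ∈ P, (m j + 1).choose 2 : ℕ) : ℤ) := by
          rw [← arn_ms, hL]
          linarith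
        exact_mod_cast h6
      obtain ⟨m₂, w, hm2le, hm2eq, hwA, hm2sum⟩ := exists_reduce hA
        (fun i hi => (Finset.mem_filter.1 hi).2) hLP
      have hwAz : (w : ℤ) < A := by exact_mod_cast hwA
      have hw0 : (0 : ℤ) ≤ w := by positivity
      have hms2P : ms m₂ P = L + w := by
        rw [arn_ms, hm2sum]
        push_cast
        rfl
      have hOP : ∀ i ∈ O, i ∉ P := fun i hi hi' => (Finset.disjoint_left.1 hdis) hi' hi
      have hms2O : ∀ O' ⊆ O, ms m₂ O' = ms m O' := by
        intro O' hO'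
        unfold ms
        refine Finset.sum_congr rfl fun i hi => ?_
        rw [hm2eq i (hOP i (hO' hi))]
      have hms2J : ms m₂ (P ∪ O) = ∑ c ∈ Finset.range T, R c + W + w := by
        rw [arn_msum hdis, hms2P, hms2O O (Finset.Subset.refl O), hL]
        ring
      have hbig2 : ∀ j' ∈ O, (((3 * A + 1 : ℕ) : ℤ) + m₂ j') * z ≤
          -((W : ℤ) + w) + ms m₂ ((P ∪ O).filter fun i => m₂ i < m₂ j') := by
        intro j' hj'
        have hj'J : j' ∈ J := (Finset.mem_filter.1 hj').1
        have hj'A : A < m j' := (Finset.mem_filter.1 hj').2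
        rw [hm2eq j' (hOP j' hj')]
        have h6 := hm (m j' - 1) (by omega) ⟨j', hj'J, by omega⟩
        have hcast' : ((m j' - 1 : ℕ) : ℤ) = (m j' : ℤ) - 1 := by
          rw [Nat.cast_sub (by omega)]
          simp
        rw [hcast'] at h6
        -- the filter
        have h7 : J.filter (fun i => m i ≤ m j' - 1) = P ∪ O.filter (fun i => m i < m j') := by
          ext x
          simp only [hP, hO, Finset.mem_union, Finset.mem_filter]
          constructor
          · rintro ⟨hx, hx1⟩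
            rcases Nat.lt_or_ge A (m x) with h' | h'
            · exact Or.inr ⟨⟨hx, h'⟩, by omega⟩
            · exact Or.inl ⟨hx, h'⟩
          · rintro (⟨hx, hx1⟩ | ⟨⟨hx, hx1⟩, hx2⟩)
            · exact ⟨hx, by omega⟩
            · exact ⟨hx, by omega⟩
        have hdis' : Disjoint P (O.filter fun i => m i < m j') :=
          Finset.disjoint_of_subset_right (Finset.filter_subset _ _) hdis
        rw [h7, arn_msum hdis'] at h6
        have h8 : ms m₂ (P ∪ O.filter (fun i => m i < m j')) ≤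
            ms m₂ ((P ∪ O).filter fun i => m₂ i < m j') := by
          refine arn_msub fun x hx => ?_
          rw [Finset.mem_filter, Finset.mem_union]
          rcases Finset.mem_union.1 hx with hx | hx
          · refine ⟨Or.inl hx, ?_⟩
            have h9 : m x ≤ A := (Finset.mem_filter.1 hx).2
            have h10 := hm2le x
            omega
          · rw [Finset.mem_filter] at hx
            refine ⟨Or.inr hx.1, ?_⟩
            rw [hm2eq x (hOP x hx.1)]
            exact hx.2
        rw [arn_msum hdis', hms2P, hms2O _ (Finset.filter_subset _ _), hL] at h8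
        have h9 : (A : ℤ) + 1 ≤ m j' := by exact_mod_cast hj'A
        have h10 : (((3 * A + 1 : ℕ) : ℤ) + m j') * z ≤
            (60 * ((m j' : ℤ) - 1) - A - 1) * z := by
          refine mul_le_mul_of_nonneg_right ?_ hz0.le
          push_cast
          linarith
        have h11 : (60 * ((m j' : ℤ) - 1) - A - 1) * z =
            60 * ((m j' : ℤ) - 1) * z - A * z - z := by ring
        rw [h11] at h10
        linarith
      have hI00 : Inv R m₂ (-((W : ℤ) + w)) (3 * A + 1) z Q (P ∪ O) T R :=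
        ⟨fun _ _ => rfl, hR.a2, hR.a4, hR.a3, hR.a0.le, by rw [hms2J]; ring⟩
      obtain ⟨y, D, -, hI, hC⟩ := early_dec (Z := ∅) hQ hzz (by omega) O
        (by rw [Finset.union_empty]; exact hdis) hbig2 T R hI00
      rw [Finset.union_empty, Finset.union_empty, hJO] at hC
      refine arn_mono (fun i _ => hm2le i) (hC ?_)
      have h5' : 32 * (A : ℤ) * z ≤ ∑ c ∈ Finset.range y, D c := by
        rw [hI.e5, hms2P, hL]
        rw [h60] at hPA
        have h6 : 32 * (A : ℤ) * z = 32 * (A * z) := by ring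
        rw [h6]
        linarith
      exact box_neg h (arn_rw hR hI h5')
        (fun i hi => (hm2le i).trans (Finset.mem_filter.1 hi).2) hI.e5 (by linarith)
        (by linarith)

theorem ar_nm {A z Q W T : ℕ} (h : BoxX A z Q W) {R : ℕ → ℤ} (hR : RwA A z Q T R)
    {m : ι → ℕ} {J : Finset ι}
    (hm : ∀ k : ℕ, A ≤ k → (∃ j ∈ J, k < m j) →
      60 * (k : ℤ) * z ≤ ms m (J.filter (fun i => m i ≤ k)))
    (hs : ∑ c ∈ Finset.range T, R c + W ≤ ms m J) : Cert m J T R :=
  arn_aux h hR _ m rfl hm hs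

theorem ar_pm {A z Q W T : ℕ} (h : BoxX A z Q W) {R : ℕ → ℤ} (hR : RwA A z Q T R)
    {m : ι → ℕ} {J Z : Finset ι} (hJZ : Disjoint J Z)
    (hm : ∀ k : ℕ, A ≤ k → (∃ j ∈ J, k < m j) →
      60 * (k : ℤ) * z ≤ ms m (J.filter (fun i => m i ≤ k)))
    (hZ : ∀ i ∈ Z, m i = 1) (hs : ∑ c ∈ Finset.range T, R c = Z.card + ms m J)
    (h1 : W ≤ Z.card) (h2 : Z.card ≤ W + A ^ 2) : Cert m (J ∪ Z) T R := by
  by_cases hall : ∀ j ∈ J, m j ≤ A
  · exact box_pos h hR hJZ hall hZ hs h1 h2
  · push Not at hall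
    obtain ⟨j, hj, hjA⟩ := hall
    obtain ⟨hQ, hz, hW⟩ := arn_num h
    have hA : 1 ≤ A := h.hM
    have hz1 : 1024 * A ≤ z := by
      have h1 : 128 * A * 8 ≤ 128 * A * Q := Nat.mul_le_mul_left _ hQ
      linarith
    have hzz : 1 ≤ z := by omega
    have hz0 : (0 : ℤ) < z := by exact_mod_cast hzz
    have hAz : (1 : ℤ) ≤ A := by exact_mod_cast hA
    obtain ⟨hJO, hdis⟩ := arn_split m J A
    set P := J.filter (fun i => m i ≤ A) with hP
    set O := J.filter (fun i => A < m i) with hO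
    have hPA : 60 * (A : ℤ) * z ≤ ms m P := hm A le_rfl ⟨j, hj, hjA⟩
    have hd : Disjoint (P ∪ Z) O := by
      rw [Finset.disjoint_union_left]
      refine ⟨hdis, ?_⟩
      exact (Finset.disjoint_of_subset_left (Finset.filter_subset _ _) hJZ).symm
    have hbig2 : ∀ j' ∈ O, (((3 * A + 1 : ℕ) : ℤ) + m j') * z ≤
        (Z.card : ℤ) + ms m ((P ∪ O).filter fun i => m i < m j') := by
      intro j' hj'
      have hj'J : j' ∈ J := (Finset.mem_filter.1 hj').1
      have hj'A : A < m j' := (Finset.mem_filter.1 hj').2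
      have h6 := hm (m j' - 1) (by omega) ⟨j', hj'J, by omega⟩
      have hcast' : ((m j' - 1 : ℕ) : ℤ) = (m j' : ℤ) - 1 := by
        rw [Nat.cast_sub (by omega)]
        simp
      rw [hcast'] at h6
      have h8 : ms m (J.filter (fun i => m i ≤ m j' - 1)) ≤
          ms m ((P ∪ O).filter fun i => m i < m j') := by
        rw [hJO]
        refine arn_msub fun x hx => ?_
        rw [Finset.mem_filter] at hx ⊢
        exact ⟨hx.1, by omega⟩
      have h9 : (A : ℤ) + 1 ≤ m j' := by exact_mod_cast hj'A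
      have h10 : (((3 * A + 1 : ℕ) : ℤ) + m j') * z ≤ (60 * ((m j' : ℤ) - 1)) * z := by
        refine mul_le_mul_of_nonneg_right ?_ hz0.le
        push_cast
        linarith
      have h11 : (0 : ℤ) ≤ Z.card := by positivity
      linarith
    have hI00 : Inv R m (Z.card : ℤ) (3 * A + 1) z Q (P ∪ O) T R :=
      ⟨fun _ _ => rfl, hR.a2, hR.a4, hR.a3, hR.a0.le, by rw [hJO]; exact hs⟩
    obtain ⟨y, D, -, hI, hC⟩ := early_dec (Z := Z) hQ hzz (by omega) O hd hbig2 T R hI00
    rw [hJO] at hC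
    refine hC ?_
    have h5' : 32 * (A : ℤ) * z ≤ ∑ c ∈ Finset.range y, D c := by
      rw [hI.e5]
      have h6 : 32 * (A : ℤ) * z = 32 * (A * z) := by ring
      have h60 : 60 * (A : ℤ) * z = 60 * (A * z) := by ring
      have h7 : (0 : ℤ) ≤ A * z := by positivity
      have h11 : (0 : ℤ) ≤ Z.card := by positivity
      rw [h6]
      rw [h60] at hPA
      linarith
    exact box_pos h (arn_rw hR hI h5')
      (Finset.disjoint_of_subset_left (Finset.filter_subset _ _) hJZ)
      (fun i hi => (Finset.mem_filter.1 hi).2) hZ hI.e5 h1 h2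

end Pool.Agent.Lib.MP_6b2d39_agVs
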