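import Pool.Agent.Lib.MP_6b2d39_agVw.RowsW
import Pool.Agent.Lib.MP_6b2d39_agVn.CurE
import Pool.Agent.Lib.MP_6b2d39_agVs.ArL
import Pool.Agent.Lib.MP_6b2d39_agUn.EmpT

/-!
Light points kill the system `a`: exact, all scales, long rows.

PROOF. As `Vw/CertW.lean` (`certW_setup`) and `Ve/CertE.lean`: `exists_cur` for `c`, `d = 3 • c`, `Q = pr d d ≥ 9`,
`z = (2 pr a d + sg d - pr d d) / 2` (even, from `om_chi`), `z ≤ pr a d` (`sg d ≤ pr d d`), `128 A Q ≤ z` from `hQz`, `rows_w` with `M := A`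
(`64 A z ≤ 64 A pr a d ≤ pr a a`) gives `RwA A z Q T r`. `ar_l`: `hR1` from `a1`, `hR3 = a2`, `hR4 = a3`, `hT = a4`, `h0` from `a5` (`2 A + 3 ≤ 32 A`),
`hs` from `hmass` and the last claim of `rows_w`, `hm` from `hm` and `z ≤ pr a d`; `hL`: for `c ≤ 2 A + 1 ≤ 3 A`: `R c = z - c Q ≥ z - 3 A Q ≥ 125 z / 128`
and `257 z ≥ 256 pr a d ≥ 256 * 13 A ^ 2`, so `R c ≥ 11 A ^ 2 ≥ 9 A ^ 2 + 2 A`. Then `EmpP (dgm r T) l J` (`empP_of_cert_up`), `diagram` as in
`core_one` (`Vn/CoreV.lean`). (`ms` and `mass` are the same sum up to casts, `Nat.choose_two_right`.)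
-/

open Polynomial

set_option autoImplicit false

namespace Pool.Agent.Lib.MP_6b2d39_agVs

open Pool.Agent.Lib.MP_6b2d39_ag Pool.Agent.Lib.MP_6b2d39_agHal Pool.Agent.Lib.MP_6b2d39_agVn
  Pool.Agent.Lib.MP_6b2d39_agVw Pool.Agent.Lib.MP_6b2d39_agUn Pool.Agent.Lib.MP_6b2d39_agArr
  Pool.Agent.Lib.MP_6b2d39_agNw Pool.Agent.Lib.MP_6b2d39_agWin

private theorem certL_ms {ι : Type} (l : ι → ℕ) (J : Finset ι) :
    ms l J = ((mass l J : ℕ) : ℤ) := by
  unfold ms mass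
  push_cast
  refine Finset.sum_congr rfl fun i _ => ?_
  rw [Nat.choose_two_right, Nat.add_sub_cancel, Nat.mul_comm (l i + 1) (l i)]
  push_cast
  rfl

private theorem certL_emp {ι : Type} [Fintype ι] [DecidableEq ι] {L : ℕ} {μ : ι → ℕ} {r : ℕ → ℕ}
    {J : Finset ι} (h : Cert μ J L (fun b => (r b : ℤ))) : EmpP (dgm r L) μ J := by
  refine empP_of_cert_up (c := 0) h (fun b _ => ?_) (fun p hp => ?_)
  · rw [zero_add]
    have hsub : rowOf (dgm r L) b ⊆ Finset.range (r b) := by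
      intro a ha
      unfold rowOf at ha
      rw [Finset.mem_image] at ha
      obtain ⟨p, hp, rfl⟩ := ha
      rw [Finset.mem_filter, mem_dgm] at hp
      rw [Finset.mem_range, ← hp.2]
      exact hp.1.2
    have hc := Finset.card_le_card hsub
    rw [Finset.card_range] at hc
    exact_mod_cast hc
  · rw [mem_dgm] at hp
    exact ⟨Nat.zero_le _, by rw [zero_add]; exact hp.1⟩

private theorem certL_long {A z Q P : ℕ} {R : ℕ → ℤ} (hA : 1 ≤ A) (hQz : 128 * (A * Q) ≤ z)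
    (hPz : 256 * P ≤ 257 * z) (hP : 13 * A ^ 2 ≤ P) (hR0 : R 0 = z)
    (hR1 : ∀ c < 3 * A, R c - R (c + 1) = Q) :
    ∀ c ≤ 2 * A + 1, 9 * (A : ℤ) ^ 2 + 2 * A ≤ R c := by
  have hR : ∀ c ≤ 3 * A, R c = z - c * Q := by
    intro c
    induction c with
    | zero =>
      intro _
      rw [hR0]
      push_cast
      ring
    | succ c ih =>
      intro hc
      have h1 := ih (by omega)
      have h2 := hR1 c (by omega)
      push_cast
      linarith
  intro c hc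
  rw [hR c (by omega)]
  have h1 : (c : ℤ) * Q ≤ 3 * (A * Q) := by
    have h2 : c * Q ≤ 3 * A * Q := Nat.mul_le_mul_right Q (by omega)
    have h3 : ((c * Q : ℕ) : ℤ) ≤ ((3 * A * Q : ℕ) : ℤ) := by exact_mod_cast h2
    push_cast at h3
    linarith
  have h2 : 128 * ((A : ℤ) * Q) ≤ z := by exact_mod_cast hQz
  have h3 : 256 * (P : ℤ) ≤ 257 * z := by exact_mod_cast hPz
  have h4 : 13 * (A : ℤ) ^ 2 ≤ P := by exact_mod_cast hP
  have h5 : (A : ℤ) ≤ (A : ℤ) ^ 2 := by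
    have h6 : (1 : ℤ) ≤ A := by exact_mod_cast hA
    nlinarith
  have h7 : (0 : ℤ) ≤ (A : ℤ) ^ 2 := by positivity
  linarith

theorem core_l {A : ℕ} (hA : 1 ≤ A) {c a a' : Fin 10 → ℕ} (h9 : ∃ i, i ≠ 9 ∧ 1 ≤ c i)
    (h1 : ∃ i, i ≠ 1 ∧ 1 ≤ c i) (ha : a = a' + (3 * A + 1) • (3 • c)) (hs : 1 ≤ sg a')
    (hQz : (256 * A + 1) * pr (3 • c) (3 • c) ≤ 2 * pr a (3 • c))
    (hsg : sg (3 • c) ≤ pr (3 • c) (3 • c)) (hbig : 64 * A * pr a (3 • c) ≤ pr a a)
    (hlong : 13 * A ^ 2 ≤ pr a (3 • c)) {ι : Type} [Fintype ι] [DecidableEq ι]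
    {l : ι → ℕ} {J : Finset ι}
    (hm : ∀ k : ℕ, A ≤ k → (∃ j ∈ J, k < l j) →
      (2 * A + 4 + k) * pr a (3 • c) ≤ mass l (J.filter (fun i => l i ≤ k)))
    (hmass : (dg a + 2).choose 2 ≤ ∑ i, (mu a i + 1).choose 2 + mass l J) :
    ∃ (p : Fin 9 → ℂ × ℂ) (x y : ι → ℂ), ∀ F ∈ Sp (dg a + 1) p (mu a),
      (∀ i ∈ J, Cond (Finset.Icc 1 (l i)) (x i) (y i) F) → F = 0 := by
  obtain ⟨t, w, G, hG⟩ := exists_cur h9 h1
  set d : Fin 10 → ℕ := 3 • c with hd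
  have hsc : sg d = 3 * sg c := by rw [hd, sg_smul]
  have hQ9 : pr d d = 9 * pr c c := by
    rw [hd, pr_smul, pr_symm, pr_smul]
    ring
  have hpos := hG.pos
  have hdim := hG.dim
  have h2 : 2 ≤ sg d := by omega
  have hchi := om_chi d
  set Q : ℕ := pr d d with hQd
  set s : ℕ := sg d with hsd
  set P : ℕ := pr a d with hPd
  have hQ : 8 ≤ Q := by omega
  have hAQ : (256 * A + 1) * Q = 2 * (128 * (A * Q)) + Q := by ring
  have hA1 : 256 * (1 * Q) ≤ 256 * (A * Q) :=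
    Nat.mul_le_mul_left _ (Nat.mul_le_mul_right Q hA)
  obtain ⟨z, hz⟩ : ∃ z, 2 * z + Q = 2 * P + s := by
    refine ⟨(2 * P + s - Q) / 2, ?_⟩
    omega
  have hzP : z ≤ P := by omega
  have hz1 : 128 * (A * Q) ≤ z := by omega
  have hzpos : 1 ≤ z := by omega
  have hPz : 256 * P ≤ 257 * z := by omega
  have hbig' : 64 * A * z ≤ pr a a := le_trans (Nat.mul_le_mul_left _ hzP) hbig
  obtain ⟨T, r, hr1, hr2, hr3, hr4⟩ := rows_w hG h2 hA ha hs hz hbig'
  have hzZ : (0 : ℤ) ≤ z := by positivity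
  have hzPZ : (z : ℤ) ≤ P := by exact_mod_cast hzP
  have hAZ : (1 : ℤ) ≤ A := by exact_mod_cast hA
  have hC : Cert l J T (fun b => (r b : ℤ)) := by
    refine ar_l (A := A) (z := z) (Q := Q) hA hQ hzpos hr1.a4
      hr1.a0.le (fun c hc => hr1.a1 c (by omega)) hr1.a2 hr1.a3
      (certL_long hA hz1 hPz hlong hr1.a0 hr1.a1) ?_ ?_ ?_
    · refine le_trans ?_ hr1.a5
      refine mul_le_mul_of_nonneg_right ?_ hzZ
      linarith
    · rw [certL_ms]
      have h3 : ∑ b ∈ Finset.range T, r b ≤ mass l J := by omega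
      exact_mod_cast h3
    · intro k hk hex
      have h3 := hm k hk hex
      have h4 : (((2 * A + 4 + k) * P : ℕ) : ℤ) ≤
          ((mass l (J.filter (fun i => l i ≤ k)) : ℕ) : ℤ) := by
        exact_mod_cast h3
      rw [← certL_ms] at h4
      refine le_trans ?_ h4
      push_cast
      refine mul_le_mul_of_nonneg_left hzPZ ?_
      positivity
  obtain ⟨x', y', hxy⟩ := diagram (f := G) hG.irr hG.natDegree hG.dep
    (W := Sp (dg a + 1) (fun i => gam (t i)) (mu a)) (n := T) (r := r) hr2 hr3 (certL_emp hC)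
  exact ⟨fun i => gam (t i), x', y', hxy⟩

end Pool.Agent.Lib.MP_6b2d39_agVs
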