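import Pool.Agent.Lib.MP_6b2d39_agVx.CertX
import Pool.Agent.Lib.MP_6b2d39_agVs.ArN

/-!
Light points kill the system `a` outside of the window, all scales.

PROOF. The proofs of `cert_neg`, `cert_pos` in `Vx/CertX.lean` (`M := A`) with `ar_nm`, `ar_pm` instead of `box_neg`, `box_pos`; `hm` of `ar_nm` from
`hm`: `z ≤ pr a d`, `Λ pr a d ≤ 3 pr a a` (`om_x`), so `Λ * 60 k z ≤ 180 k pr a a ≤ Λ mass …`, and `Λ ≥ 1`.
(`ms` and `mass` are the same sum up to casts, `Nat.choose_two_right`.)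
-/

open Polynomial

set_option autoImplicit false

namespace Pool.Agent.Lib.MP_6b2d39_agVs

open Pool.Agent.Lib.MP_6b2d39_ag Pool.Agent.Lib.MP_6b2d39_agHal Pool.Agent.Lib.MP_6b2d39_agVn
  Pool.Agent.Lib.MP_6b2d39_agVw Pool.Agent.Lib.MP_6b2d39_agUn Pool.Agent.Lib.MP_6b2d39_agUv
  Pool.Agent.Lib.MP_6b2d39_agArr Pool.Agent.Lib.MP_6b2d39_agNw Pool.Agent.Lib.MP_6b2d39_agWin
  Pool.Agent.Lib.MP_6b2d39_agVx

private theorem certS_ms {ι : Type} (l : ι → ℕ) (J : Finset ι) :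
    ms l J = ((mass l J : ℕ) : ℤ) := by
  unfold ms mass
  push_cast
  refine Finset.sum_congr rfl fun i _ => ?_
  rw [Nat.choose_two_right, Nat.add_sub_cancel, Nat.mul_comm (l i + 1) (l i)]
  push_cast
  rfl

private theorem certS_emp {ι : Type} [Fintype ι] [DecidableEq ι] {L : ℕ} {μ : ι → ℕ} {r : ℕ → ℕ}
    {J : Finset ι} (h : Cert μ J L (fun b => (r b : ℤ))) : EmpP (dgm r L) μ J := by
  refine empP_of_cert_up (c := 0) h (fun b _ => ?_) (fun p hp => ?_)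
  · rw [zero_add]
    have hsub : rowOf (dgm r L) b ⊆ Finset.range (r b) := by
      intro a ha
      unfold rowOf at ha
      rw [Finset.mem_image] at ha
      obtain ⟨p, hp, rfl⟩ := ha
      rw [Finset.mem_filter, mem_dgm] at hp
      rw [Finset.mem_range, ← hp.2]
      exact hp.1.2
    have hc := Finset.card_le_card hsub
    rw [Finset.card_range] at hc
    exact_mod_cast hc
  · rw [mem_dgm] at hp
    exact ⟨Nat.zero_le _, by rw [zero_add]; exact hp.1⟩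

/-- the curve, its rows and the numbers -/
private theorem certS_setup {A Λ W : ℕ} {a : Fin 10 → ℕ} (hN : NwX A Λ a W) :
    ∃ (d : Fin 10 → ℕ) (t : Fin 9 → ℂ) (w : ℂ) (G : ℂ[X][X]) (z T : ℕ) (r : ℕ → ℕ),
      Cur d t w G ∧ BoxX A z (pr d d) W ∧ Λ * z ≤ 3 * pr a a ∧
      RwA A z (pr d d) T (fun b => (r b : ℤ)) ∧
      (∀ b < T, Module.finrank ℂ (quo G b (Sp (dg a + 1) (fun i => gam (t i)) (mu a))) ≤
        r b + Module.finrank ℂ (quo G (b + 1) (Sp (dg a + 1) (fun i => gam (t i)) (mu a)))) ∧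
      (∀ F : ℂ[X][X], G ^ T * F ∈ Sp (dg a + 1) (fun i => gam (t i)) (mu a) → F = 0) ∧
      ∑ b ∈ Finset.range T, r b + ∑ i, (mu a i + 1).choose 2 = (dg a + 2).choose 2 := by
  obtain ⟨c, a', h9, h1, ha, hs', hi, hii, hiii, hv, hiv⟩ := om_x hN.hM hN.hΛ hN.hs hN.hcase
  obtain ⟨t, w, G, hG⟩ := exists_cur h9 h1
  have hM := hN.hM
  set d : Fin 10 → ℕ := 3 • c with hd
  -- the slope
  have hQ9 : pr d d = 9 * pr c c := by
    rw [hd, pr_smul, pr_symm, pr_smul]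
    ring
  have hdim := hG.dim
  have hQ : 8 ≤ pr d d := by omega
  have hsg : sg d = 3 * sg c := by rw [hd, sg_smul]
  have hpos := hG.pos
  have h2 : 2 ≤ sg d := by omega
  -- the first row
  have hchi := om_chi d
  set Q : ℕ := pr d d with hQd
  set s : ℕ := sg d with hsd
  set P : ℕ := pr a d with hPd
  have hQP : Q ≤ 2 * P := by
    have h3 : 1 * Q ≤ (256 * A + 1) * Q := Nat.mul_le_mul_right Q (by omega)
    omega
  obtain ⟨z, hz⟩ : ∃ z, 2 * z + Q = 2 * P + s := by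
    refine ⟨(2 * P + s - Q) / 2, ?_⟩
    omega
  have hzP : z ≤ P := by omega
  have hz1 : 128 * A * Q ≤ z := by
    have h3 : (256 * A + 1) * Q = 2 * (128 * A * Q) + Q := by ring
    omega
  have hbig : 64 * A * z ≤ pr a a := le_trans (Nat.mul_le_mul_left _ hzP) hiii
  have hzv : Λ * z ≤ 3 * pr a a := le_trans (Nat.mul_le_mul_left _ hzP) hv
  -- `257 z` against `256 P`
  have hPz : 256 * P ≤ 257 * z := by
    have h3 : 257 * Q ≤ (256 * A + 1) * Q := Nat.mul_le_mul_right Q (by omega)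
    omega
  have hup : pr a a ≤ 22 * Λ * z := by
    have h3 : 256 * (21 * Λ * P) ≤ 256 * (22 * Λ * z) := by
      have h4 : 256 * (21 * Λ * P) = 21 * Λ * (256 * P) := by ring
      rw [h4]
      calc 21 * Λ * (256 * P) ≤ 21 * Λ * (257 * z) := Nat.mul_le_mul_left _ hPz
        _ = 5397 * (Λ * z) := by ring
        _ ≤ 5632 * (Λ * z) := Nat.mul_le_mul_right _ (by norm_num)
        _ = 256 * (22 * Λ * z) := by ring
    have h5 : 21 * Λ * P ≤ 22 * Λ * z := Nat.le_of_mul_le_mul_left h3 (by norm_num)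
    exact hiv.trans h5
  obtain ⟨T, r, hr1, hr2, hr3, hr4⟩ := rows_w hG h2 hM ha hs' hz hbig
  exact ⟨d, t, w, G, z, T, r, hG, hN.num z Q hQ hz1 hup hzv, hzv, hr1, hr2, hr3, hr4⟩

/-- the masses -/
private theorem certS_hm {A Λ z : ℕ} {a : Fin 10 → ℕ} (hA : 1 ≤ A) (hΛ : 400 * A ≤ Λ)
    (hz : Λ * z ≤ 3 * pr a a) {ι : Type} [DecidableEq ι] {l : ι → ℕ} {J : Finset ι}
    (hm : ∀ k : ℕ, A ≤ k → (∃ j ∈ J, k < l j) →
      180 * k * pr a a ≤ Λ * mass l (J.filter (fun i => l i ≤ k))) :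
    ∀ k : ℕ, A ≤ k → (∃ j ∈ J, k < l j) →
      60 * (k : ℤ) * z ≤ ms l (J.filter (fun i => l i ≤ k)) := by
  intro k hk hj
  have h1 := hm k hk hj
  rw [certS_ms]
  have h2 : Λ * (60 * k * z) ≤ Λ * mass l (J.filter (fun i => l i ≤ k)) := by
    calc Λ * (60 * k * z) = 60 * k * (Λ * z) := by ring
      _ ≤ 60 * k * (3 * pr a a) := Nat.mul_le_mul_left _ hz
      _ = 180 * k * pr a a := by ring
      _ ≤ Λ * mass l (J.filter (fun i => l i ≤ k)) := h1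
  have h3 : 60 * k * z ≤ mass l (J.filter (fun i => l i ≤ k)) :=
    Nat.le_of_mul_le_mul_left h2 (by omega)
  exact_mod_cast h3

theorem cert_ns {A Λ W : ℕ} {a : Fin 10 → ℕ} (hN : NwX A Λ a W) {ι : Type} [Fintype ι]
    [DecidableEq ι] {l : ι → ℕ} {J : Finset ι}
    (hm : ∀ k : ℕ, A ≤ k → (∃ j ∈ J, k < l j) →
      180 * k * pr a a ≤ Λ * mass l (J.filter (fun i => l i ≤ k)))
    (h1 : (dg a + 2).choose 2 + W ≤ ∑ i, (mu a i + 1).choose 2 + mass l J) :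
    ∃ (p : Fin 9 → ℂ × ℂ) (x y : ι → ℂ), ∀ F ∈ Sp (dg a + 1) p (mu a),
      (∀ i ∈ J, Cond (Finset.Icc 1 (l i)) (x i) (y i) F) → F = 0 := by
  obtain ⟨d, t, w, G, z, T, r, hG, hA, hzv, hR, hr2, hr3, hr4⟩ := certS_setup hN
  have hC : Cert l J T (fun b => (r b : ℤ)) := by
    refine ar_nm hA hR (certS_hm hN.hM hN.hΛ hzv hm) ?_
    rw [certS_ms]
    have h3 : ∑ b ∈ Finset.range T, r b + W ≤ mass l J := by omega
    exact_mod_cast h3
  obtain ⟨x', y', hxy⟩ := diagram (f := G) hG.irr hG.natDegree hG.dep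
    (W := Sp (dg a + 1) (fun i => gam (t i)) (mu a)) (n := T) (r := r) hr2 hr3 (certS_emp hC)
  exact ⟨fun i => gam (t i), x', y', hxy⟩

theorem cert_ps {A Λ W : ℕ} {a : Fin 10 → ℕ} (hN : NwX A Λ a W) {ι : Type} [Fintype ι]
    [DecidableEq ι] {l : ι → ℕ} {J Z : Finset ι} (hJZ : Disjoint J Z)
    (hm : ∀ k : ℕ, A ≤ k → (∃ j ∈ J, k < l j) →
      180 * k * pr a a ≤ Λ * mass l (J.filter (fun i => l i ≤ k)))
    (hZ : ∀ j ∈ Z, l j = 1)
    (hmass : (dg a + 2).choose 2 = ∑ i, (mu a i + 1).choose 2 + mass l J + Z.card)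
    (h1 : W ≤ Z.card) (h2 : Z.card ≤ W + A ^ 2) :
    ∃ (p : Fin 9 → ℂ × ℂ) (x y : ι → ℂ), ∀ F ∈ Sp (dg a + 1) p (mu a),
      (∀ i ∈ J ∪ Z, Cond (Finset.Icc 1 (l i)) (x i) (y i) F) → F = 0 := by
  obtain ⟨d, t, w, G, z, T, r, hG, hA, hzv, hR, hr2, hr3, hr4⟩ := certS_setup hN
  have hC : Cert l (J ∪ Z) T (fun b => (r b : ℤ)) := by
    refine ar_pm hA hR hJZ (certS_hm hN.hM hN.hΛ hzv hm) hZ ?_ h1 h2
    rw [certS_ms]
    have h3 : ∑ b ∈ Finset.range T, r b = Z.card + mass l J := by omega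
    exact_mod_cast h3
  obtain ⟨x', y', hxy⟩ := diagram (f := G) hG.irr hG.natDegree hG.dep
    (W := Sp (dg a + 1) (fun i => gam (t i)) (mu a)) (n := T) (r := r) hr2 hr3 (certS_emp hC)
  exact ⟨fun i => gam (t i), x', y', hxy⟩

end Pool.Agent.Lib.MP_6b2d39_agVs
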