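import Pool.Agent.Lib.MP_6b2d39_agNf.FillE
import Pool.Agent.Lib.MP_6b2d39_agUn.Early

/-!
Exact filling of long rows by points of multiplicity `≤ A`, as a certificate.

PROOF. `r b = (D b).toNat` (`D b ≥ 1` for `b < y`: the rows decrease and the last one is positive); `Long A (2 A + 1) y r` (`aff` with `σ = Q`
from `h1`), `fillable_of_long`. Then as `emp_of_fillable` (`Nf/FillE.lean`), stopping at the certificate: `exists_reduce` gives `m' ≤ m` with
`∑ (m' j + 1).choose 2 = ∑ r + w`, `w < A`; `Fillable` gives `dem`; `light_le` (`Nf/Light.lean`, full name) gives `Cert m' J y dem`; a `Cert` for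
`m' ≤ m` and larger demands is one for `m` and `D`. `ms m J` is `∑ (m j + 1).choose 2` up to casts (`Nat.choose_two_right`).
-/

set_option autoImplicit false

namespace Pool.Agent.Lib.MP_6b2d39_agVs

open Pool.Agent.Lib.MP_6b2d39_agArr Pool.Agent.Lib.MP_6b2d39_agUn Pool.Agent.Lib.MP_6b2d39_agNf

private theorem fillL_pos {y : ℕ} {D : ℕ → ℤ} (h2 : ∀ b, b + 1 < y → D (b + 1) + 1 ≤ D b)
    (h3 : 1 ≤ D (y - 1)) : ∀ k b, b + k + 1 = y → 1 ≤ D b := by
  intro k
  induction k with
  | zero =>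
    intro b hb
    have h : b = y - 1 := by omega
    rw [h]
    exact h3
  | succ k ih =>
    intro b hb
    have := ih (b + 1) (by omega)
    have := h2 b (by omega)
    linarith

private theorem fillL_aff {A Q : ℕ} {D : ℕ → ℤ} (h1 : ∀ b < A, D b - D (b + 1) = Q) :
    ∀ b ≤ A, D b + Q * b = D 0 := by
  intro b
  induction b with
  | zero => intro _; simp
  | succ b ih =>
    intro hb
    have e1 := ih (by omega)
    have e2 := h1 b (by omega)
    push_cast
    linarith

theorem fill_l {ι : Type} [DecidableEq ι] {m : ι → ℕ} {J : Finset ι} {A Q y : ℕ} {D : ℕ → ℤ}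
    (hA : 1 ≤ A) (hy : 2 * A + 2 ≤ y) (hm : ∀ j ∈ J, m j ≤ A)
    (h1 : ∀ b < A, D b - D (b + 1) = Q) (h2 : ∀ b, b + 1 < y → D (b + 1) + 1 ≤ D b)
    (h3 : 1 ≤ D (y - 1)) (h4 : ∀ b ≤ 2 * A + 1, 9 * (A : ℤ) ^ 2 + 2 * A ≤ D b)
    (hs : ∑ c ∈ Finset.range y, D c ≤ ms m J) : Cert m J y D := by
  have hpos : ∀ b < y, 1 ≤ D b := fun b hb => fillL_pos h2 h3 (y - 1 - b) b (by omega)
  have hr : ∀ b < y, (((D b).toNat : ℕ) : ℤ) = D b := fun b hb => by
    have := hpos b hb
    omega
  have hL : Long A (2 * A + 1) y (fun b => (D b).toNat) := by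
    refine ⟨hA, le_rfl, by omega, ?_, ?_, ?_, ?_, Q, ?_⟩
    · intro b _ hb
      have e1 := h2 b hb
      have e2 := hpos (b + 1) hb
      omega
    · intro b hb
      have e1 := h2 b hb
      omega
    · intro b hb
      have e1 := hpos b hb
      omega
    · intro b hb hb'
      have e1 := h4 b hb
      have e2 := hr b hb'
      have e3 : ((9 * A ^ 2 + 2 * A : ℕ) : ℤ) ≤ ((D b).toNat : ℕ) := by
        rw [e2]
        push_cast
        exact e1
      exact_mod_cast e3
    · intro b hb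
      have e1 := fillL_aff h1 b hb
      have e2 := hr b (by omega)
      have e3 := hr 0 (by omega)
      have e4 : (((D b).toNat + Q * b : ℕ) : ℤ) = ((D 0).toNat : ℕ) := by
        push_cast [e2]
        rw [e1]
        exact e3.symm
      exact_mod_cast e4
  have hsum : ∑ b ∈ Finset.range y, (((D b).toNat : ℕ) : ℤ) = ∑ b ∈ Finset.range y, D b :=
    Finset.sum_congr rfl fun b hb => hr b (Finset.mem_range.1 hb)
  have hms : ms m J = ((∑ j ∈ J, (m j + 1).choose 2 : ℕ) : ℤ) := by
    unfold ms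
    push_cast
    refine Finset.sum_congr rfl fun j _ => ?_
    rw [Nat.choose_two_right, Nat.add_sub_cancel, Nat.mul_comm (m j + 1)]
    push_cast
    rfl
  have hT : ∑ b ∈ Finset.range y, (D b).toNat ≤ ∑ j ∈ J, (m j + 1).choose 2 := by
    have e1 : ((∑ b ∈ Finset.range y, (D b).toNat : ℕ) : ℤ) ≤
        ((∑ j ∈ J, (m j + 1).choose 2 : ℕ) : ℤ) := by
      rw [← hms, Nat.cast_sum, hsum]
      exact hs
    exact_mod_cast e1
  obtain ⟨m', w, hle, _, hw, hsum'⟩ := exists_reduce hA hm hT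
  obtain ⟨B, dem, hD, hrd, hsd⟩ := fillable_of_long hL w hw
  have c1 : Cert m' J y dem := by
    refine Pool.Agent.Lib.MP_6b2d39_agNf.light_le hD J (fun j hj => (hle j).trans (hm j hj)) ?_
    rw [hsd]
    have e1 : ((∑ j ∈ J, (m' j + 1).choose 2 : ℕ) : ℤ) =
        ((∑ b ∈ Finset.range y, (D b).toNat + w : ℕ) : ℤ) := by rw [hsum']
    push_cast at e1
    push_cast
    exact e1.symm
  exact cert_mono (fun j _ => hle j) (fun b hb => by rw [← hr b hb]; exact hrd b hb) c1

end Pool.Agent.Lib.MP_6b2d39_agVs
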