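import Mathlib

/-!
Numbers: if the window is at least `15 a ^ 2` then `A ≤ C a ^ 2`.

PROOF. `l = log (A / a ^ 2 + 2) ≥ log 2`. `r ≤ A ^ (1 / 2)`, `A ≤ 120000 a ^ 2 r` give `A ≤ 120000 ^ 2 a ^ 4`, so `l ≤ 2 log a + 30`.
One of the three terms is at least `5 a ^ 2`. (1) `K (400 r a ^ 2 / A) ^ 2 l ^ 3 ≥ 5 a ^ 2`: `A ^ 2 ≤ K' r ^ 2 a ^ 2 l ^ 3 ≤ K' A a ^ 2 l ^ 3`, so
`x = A / a ^ 2 ≤ K' l ^ 3 = K' log (x + 2) ^ 3`, so `x ≤ C` (`log (x + 2) ≤ C'' (x + 2) ^ (1 / 6)`).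
(2) `K a l ^ 3 ≥ 5 a ^ 2`: `a ≤ K l ^ 3 ≤ K (2 log a + 30) ^ 3`, so `a ≤ C`, `A ≤ 120000 ^ 2 a ^ 4 ≤ C' a ^ 2`.
(3) `K (A / (400 r)) ^ (3 / 4) l ^ 3 ≥ 5 a ^ 2` with `A / r ≤ 120000 a ^ 2`: `a ^ (1 / 2) ≤ K' l ^ 3`, so `a ≤ C` as in (2).
-/

set_option autoImplicit false

namespace Pool.Agent.Lib.MP_6b2d39_agVs

/-- `y ≤ M log (y + 2) ^ 3` bounds `y` -/
private theorem ny_bound (M : ℝ) (hM : 0 ≤ M) :
    ∃ C : ℝ, 0 ≤ C ∧ ∀ y : ℝ, 0 ≤ y → y ≤ M * Real.log (y + 2) ^ 3 → y ≤ C := by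
  have h := (Real.isLittleO_pow_log_id_atTop (n := 3)).def (c := 1 / (2 * (M + 1))) (by positivity)
  obtain ⟨X, hX⟩ := Filter.eventually_atTop.1 h
  refine ⟨max X 2, le_max_of_le_right (by norm_num), fun y hy hle => ?_⟩
  by_contra hcon
  push Not at hcon
  have h1 : X ≤ y + 2 := by
    have := le_max_left X 2
    linarith
  have h2 := hX (y + 2) h1
  have hlog : 0 ≤ Real.log (y + 2) := Real.log_nonneg (by linarith)
  simp only [id, Real.norm_eq_abs] at h2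
  rw [abs_of_nonneg (pow_nonneg hlog 3), abs_of_nonneg (by linarith : (0 : ℝ) ≤ y + 2)] at h2
  have h3 : M * Real.log (y + 2) ^ 3 ≤ (y + 2) / 2 := by
    calc M * Real.log (y + 2) ^ 3 ≤ (M + 1) * Real.log (y + 2) ^ 3 :=
          mul_le_mul_of_nonneg_right (by linarith) (pow_nonneg hlog 3)
      _ ≤ (M + 1) * (1 / (2 * (M + 1)) * (y + 2)) := mul_le_mul_of_nonneg_left h2 (by linarith)
      _ = (y + 2) / 2 := by field_simp
  have h4 : (2 : ℝ) < y := lt_of_le_of_lt (le_max_right X 2) hcon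
  linarith

theorem num_y (K : ℝ) : ∃ C : ℝ, ∀ a r A : ℕ, 1 ≤ a → a ≤ r → r ^ 2 ≤ A →
    A ≤ 120000 * a ^ 2 * r →
    15 * (a : ℝ) ^ 2 ≤ K * ((((400 * r : ℕ) : ℝ) * a ^ 2 / A) ^ 2 + a +
      ((A : ℝ) / ((400 * r : ℕ) : ℝ)) ^ (3 / 4 : ℝ)) * Real.log ((A : ℝ) / a ^ 2 + 2) ^ 3 →
    (A : ℝ) ≤ C * (a : ℝ) ^ 2 := by
  obtain ⟨L, hL⟩ : ∃ L : ℝ, L = max K 1 := ⟨_, rfl⟩
  have hL1 : 1 ≤ L := by rw [hL]; exact le_max_right _ _
  have hKL : K ≤ L := by rw [hL]; exact le_max_left _ _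
  obtain ⟨Q, hQ⟩ : ∃ Q : ℝ, Q = Real.log (3 * 120000 ^ 2) + 2 := ⟨_, rfl⟩
  have hQ0 : 0 ≤ Q := by
    rw [hQ]
    have := Real.log_nonneg (by norm_num : (1 : ℝ) ≤ 3 * 120000 ^ 2)
    linarith
  obtain ⟨C1, hC1, hb1⟩ := ny_bound (32000 * L) (by linarith)
  obtain ⟨C2, hC2, hb2⟩ := ny_bound (L * Q ^ 3) (by positivity)
  obtain ⟨C3, hC3, hb3⟩ := ny_bound (L * 300 * (2 * Q) ^ 3) (by positivity)
  refine ⟨C1 + 120000 ^ 2 * C2 ^ 2 + 120000 ^ 2 * C3 ^ 4, fun a r A ha har hrA hA h => ?_⟩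
  have ha1 : (1 : ℝ) ≤ a := by exact_mod_cast ha
  have ha0 : (0 : ℝ) < a := by linarith
  have har' : (a : ℝ) ≤ r := by exact_mod_cast har
  have hr0 : (0 : ℝ) < r := by linarith
  have hrA' : (r : ℝ) ^ 2 ≤ A := by exact_mod_cast hrA
  have hA0 : (0 : ℝ) < A := lt_of_lt_of_le (by positivity) hrA'
  have hA' : (A : ℝ) ≤ 120000 * (a : ℝ) ^ 2 * r := by exact_mod_cast hA
  have hA4 : (A : ℝ) ≤ 120000 ^ 2 * (a : ℝ) ^ 4 := by
    have h1 : (A : ℝ) * A ≤ (120000 ^ 2 * (a : ℝ) ^ 4) * A := by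
      calc (A : ℝ) * A ≤ (120000 * (a : ℝ) ^ 2 * r) * (120000 * (a : ℝ) ^ 2 * r) :=
            mul_le_mul hA' hA' hA0.le (by positivity)
        _ = (120000 ^ 2 * (a : ℝ) ^ 4) * r ^ 2 := by ring
        _ ≤ (120000 ^ 2 * (a : ℝ) ^ 4) * A := mul_le_mul_of_nonneg_left hrA' (by positivity)
    exact le_of_mul_le_mul_right h1 hA0
  obtain ⟨x, hx⟩ : ∃ x : ℝ, x = (A : ℝ) / (a : ℝ) ^ 2 := ⟨_, rfl⟩
  rw [← hx] at h
  have hx1 : 1 ≤ x := by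
    rw [hx, le_div_iff₀ (by positivity), one_mul]
    exact le_trans (pow_le_pow_left₀ ha0.le har' 2) hrA'
  have hxA : (A : ℝ) = x * (a : ℝ) ^ 2 := by
    rw [hx]; field_simp
  have hxa : x ≤ 120000 ^ 2 * (a : ℝ) ^ 2 := by
    rw [hx, div_le_iff₀ (by positivity)]
    calc (A : ℝ) ≤ 120000 ^ 2 * (a : ℝ) ^ 4 := hA4
      _ = 120000 ^ 2 * (a : ℝ) ^ 2 * (a : ℝ) ^ 2 := by ring
  have hl0 : 0 ≤ Real.log (x + 2) := Real.log_nonneg (by linarith)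
  have hla1 : 1 ≤ Real.log ((a : ℝ) + 2) := by
    rw [Real.le_log_iff_exp_le (by linarith)]
    have := Real.exp_one_lt_d9
    linarith
  have hl : Real.log (x + 2) ≤ Q * Real.log ((a : ℝ) + 2) := by
    have h1 : x + 2 ≤ (3 * 120000 ^ 2) * (a : ℝ) ^ 2 := by nlinarith
    calc Real.log (x + 2) ≤ Real.log ((3 * 120000 ^ 2) * (a : ℝ) ^ 2) :=
          Real.log_le_log (by linarith) h1
      _ = Real.log (3 * 120000 ^ 2) + 2 * Real.log a := by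
          rw [Real.log_mul (by norm_num) (by positivity), Real.log_pow]
          norm_num
      _ ≤ Real.log (3 * 120000 ^ 2) * Real.log ((a : ℝ) + 2) + 2 * Real.log ((a : ℝ) + 2) := by
          have h2 : Real.log (3 * 120000 ^ 2) ≤
              Real.log (3 * 120000 ^ 2) * Real.log ((a : ℝ) + 2) :=
            le_mul_of_one_le_right (Real.log_nonneg (by norm_num)) hla1
          have h3 : Real.log a ≤ Real.log ((a : ℝ) + 2) :=
            Real.log_le_log ha0 (by linarith)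
          linarith
      _ = Q * Real.log ((a : ℝ) + 2) := by rw [hQ]; ring
  have hl3 : Real.log (x + 2) ^ 3 ≤ Q ^ 3 * Real.log ((a : ℝ) + 2) ^ 3 := by
    rw [← mul_pow]
    exact pow_le_pow_left₀ hl0 hl 3
  have hl30 : 0 ≤ Real.log (x + 2) ^ 3 := pow_nonneg hl0 3
  -- the three terms
  obtain ⟨T1, hT1⟩ : ∃ T1 : ℝ, T1 = (((400 * r : ℕ) : ℝ) * a ^ 2 / A) ^ 2 := ⟨_, rfl⟩
  obtain ⟨T3, hT3⟩ : ∃ T3 : ℝ, T3 = ((A : ℝ) / ((400 * r : ℕ) : ℝ)) ^ (3 / 4 : ℝ) := ⟨_, rfl⟩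
  rw [← hT1, ← hT3] at h
  have hT10 : 0 ≤ T1 := by rw [hT1]; positivity
  have hT30 : 0 ≤ T3 := by rw [hT3]; positivity
  have h' : 15 * (a : ℝ) ^ 2 ≤ L * (T1 + a + T3) * Real.log (x + 2) ^ 3 :=
    le_trans h (mul_le_mul_of_nonneg_right
      (mul_le_mul_of_nonneg_right hKL (by linarith)) hl30)
  have hsplit : 5 * (a : ℝ) ^ 2 ≤ L * T1 * Real.log (x + 2) ^ 3 ∨
      5 * (a : ℝ) ^ 2 ≤ L * a * Real.log (x + 2) ^ 3 ∨
      5 * (a : ℝ) ^ 2 ≤ L * T3 * Real.log (x + 2) ^ 3 := by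
    by_contra hcon
    push Not at hcon
    obtain ⟨c1, c2, c3⟩ := hcon
    nlinarith
  have hfin2 : 0 ≤ C1 * (a : ℝ) ^ 2 := by positivity
  have hfin3 : 0 ≤ 120000 ^ 2 * C2 ^ 2 * (a : ℝ) ^ 2 := by positivity
  have hfin4 : 0 ≤ 120000 ^ 2 * C3 ^ 4 * (a : ℝ) ^ 2 := by positivity
  have hgoal : (C1 + 120000 ^ 2 * C2 ^ 2 + 120000 ^ 2 * C3 ^ 4) * (a : ℝ) ^ 2 =
      C1 * (a : ℝ) ^ 2 + 120000 ^ 2 * C2 ^ 2 * (a : ℝ) ^ 2 + 120000 ^ 2 * C3 ^ 4 * (a : ℝ) ^ 2 := by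
    ring
  rw [hgoal]
  rcases hsplit with hc | hc | hc
  · -- first term
    have h1 : T1 ≤ 160000 * (a : ℝ) ^ 2 / x := by
      rw [hT1, hxA]
      push_cast
      rw [div_pow, div_le_div_iff₀ (by positivity) (by linarith)]
      have h2 : (r : ℝ) ^ 2 ≤ x * (a : ℝ) ^ 2 := by rw [← hxA]; exact hrA'
      calc (400 * (r : ℝ) * (a : ℝ) ^ 2) ^ 2 * x = 160000 * (a : ℝ) ^ 4 * x * (r : ℝ) ^ 2 := by ring
        _ ≤ 160000 * (a : ℝ) ^ 4 * x * (x * (a : ℝ) ^ 2) :=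
            mul_le_mul_of_nonneg_left h2 (by positivity)
        _ = 160000 * (a : ℝ) ^ 2 * (x * (a : ℝ) ^ 2) ^ 2 := by ring
    have h2 : 5 * (a : ℝ) ^ 2 ≤ L * (160000 * (a : ℝ) ^ 2 / x) * Real.log (x + 2) ^ 3 :=
      le_trans hc (mul_le_mul_of_nonneg_right
        (mul_le_mul_of_nonneg_left h1 (by linarith)) hl30)
    have h3 : x ≤ 32000 * L * Real.log (x + 2) ^ 3 := by
      have h4 : 5 * (a : ℝ) ^ 2 * x ≤ 5 * (a : ℝ) ^ 2 * (32000 * L * Real.log (x + 2) ^ 3) := by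
        calc 5 * (a : ℝ) ^ 2 * x
            ≤ L * (160000 * (a : ℝ) ^ 2 / x) * Real.log (x + 2) ^ 3 * x :=
              mul_le_mul_of_nonneg_right h2 (by linarith)
          _ = 5 * (a : ℝ) ^ 2 * (32000 * L * Real.log (x + 2) ^ 3) := by
              field_simp
              ring
      exact le_of_mul_le_mul_left h4 (by positivity)
    have h4 := hb1 x (by linarith) h3
    have h5 : (A : ℝ) ≤ C1 * (a : ℝ) ^ 2 := by
      rw [hxA]
      exact mul_le_mul_of_nonneg_right h4 (by positivity)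
    linarith
  · -- second term
    have h1 : (a : ℝ) ≤ L * Q ^ 3 * Real.log ((a : ℝ) + 2) ^ 3 := by
      have h2 : (a : ℝ) * a ≤ a * (L * Real.log (x + 2) ^ 3) := by nlinarith
      have h3 := le_of_mul_le_mul_left h2 ha0
      calc (a : ℝ) ≤ L * Real.log (x + 2) ^ 3 := h3
        _ ≤ L * (Q ^ 3 * Real.log ((a : ℝ) + 2) ^ 3) :=
            mul_le_mul_of_nonneg_left hl3 (by linarith)
        _ = _ := by ring
    have h2 := hb2 a ha0.le h1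
    have h3 : (A : ℝ) ≤ 120000 ^ 2 * C2 ^ 2 * (a : ℝ) ^ 2 := by
      have h4 : (a : ℝ) ^ 2 ≤ C2 ^ 2 := pow_le_pow_left₀ ha0.le h2 2
      calc (A : ℝ) ≤ 120000 ^ 2 * (a : ℝ) ^ 4 := hA4
        _ = 120000 ^ 2 * (a : ℝ) ^ 2 * (a : ℝ) ^ 2 := by ring
        _ ≤ 120000 ^ 2 * C2 ^ 2 * (a : ℝ) ^ 2 := by
            apply mul_le_mul_of_nonneg_right _ (by positivity)
            exact mul_le_mul_of_nonneg_left h4 (by norm_num)
    linarith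
  · -- third term
    obtain ⟨y, hy⟩ : ∃ y : ℝ, y = Real.sqrt a := ⟨_, rfl⟩
    have hy0 : 0 ≤ y := by rw [hy]; exact Real.sqrt_nonneg _
    have hyy : y ^ 2 = a := by rw [hy]; exact Real.sq_sqrt ha0.le
    have hy1 : 1 ≤ y := by
      rw [hy]; exact Real.one_le_sqrt.2 ha1
    have h1 : T3 ≤ 300 * y ^ 3 := by
      have h2 : (A : ℝ) / ((400 * r : ℕ) : ℝ) ≤ 300 * y ^ 4 := by
        push_cast
        rw [div_le_iff₀ (by positivity)]
        calc (A : ℝ) ≤ 120000 * (a : ℝ) ^ 2 * r := hA'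
          _ = 300 * y ^ 4 * (400 * r) := by rw [← hyy]; ring
      have h3 : T3 ≤ (300 * y ^ 4) ^ (3 / 4 : ℝ) := by
        rw [hT3]
        exact Real.rpow_le_rpow (by positivity) h2 (by norm_num)
      have h4 : (300 * y ^ 4) ^ (3 / 4 : ℝ) = (300 : ℝ) ^ (3 / 4 : ℝ) * y ^ 3 := by
        rw [Real.mul_rpow (by norm_num) (by positivity)]
        congr 1
        rw [← Real.rpow_natCast y 4, ← Real.rpow_mul hy0, ← Real.rpow_natCast y 3]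
        norm_num
      have h5 : (300 : ℝ) ^ (3 / 4 : ℝ) ≤ 300 := by
        calc (300 : ℝ) ^ (3 / 4 : ℝ) ≤ (300 : ℝ) ^ (1 : ℝ) :=
              Real.rpow_le_rpow_of_exponent_le (by norm_num) (by norm_num)
          _ = 300 := Real.rpow_one _
      rw [h4] at h3
      exact le_trans h3 (mul_le_mul_of_nonneg_right h5 (by positivity))
    have h2 : y ≤ L * 300 * Real.log (x + 2) ^ 3 := by
      have h3 : 5 * (a : ℝ) ^ 2 ≤ L * (300 * y ^ 3) * Real.log (x + 2) ^ 3 :=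
        le_trans hc (mul_le_mul_of_nonneg_right
          (mul_le_mul_of_nonneg_left h1 (by linarith)) hl30)
      have h4 : y ^ 3 * y ≤ y ^ 3 * (L * 300 * Real.log (x + 2) ^ 3) := by
        have h5 : y ^ 3 * y = (a : ℝ) ^ 2 := by rw [← hyy]; ring
        have h6 : y ^ 3 * (L * 300 * Real.log (x + 2) ^ 3) =
            L * (300 * y ^ 3) * Real.log (x + 2) ^ 3 := by ring
        rw [h5, h6]
        have h7 : 0 ≤ (a : ℝ) ^ 2 := by positivity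
        linarith
      exact le_of_mul_le_mul_left h4 (by positivity)
    have h3 : Real.log ((a : ℝ) + 2) ≤ 2 * Real.log (y + 2) := by
      have h4 : (a : ℝ) + 2 ≤ (y + 2) ^ 2 := by
        have h5 : (y + 2) ^ 2 = (a : ℝ) + 4 * y + 4 := by rw [← hyy]; ring
        rw [h5]
        linarith
      calc Real.log ((a : ℝ) + 2) ≤ Real.log ((y + 2) ^ 2) :=
            Real.log_le_log (by linarith) h4
        _ = 2 * Real.log (y + 2) := by rw [Real.log_pow]; norm_num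
    have h4 : Real.log (x + 2) ^ 3 ≤ (2 * Q) ^ 3 * Real.log (y + 2) ^ 3 := by
      rw [← mul_pow]
      apply pow_le_pow_left₀ hl0
      calc Real.log (x + 2) ≤ Q * Real.log ((a : ℝ) + 2) := hl
        _ ≤ Q * (2 * Real.log (y + 2)) := mul_le_mul_of_nonneg_left h3 hQ0
        _ = 2 * Q * Real.log (y + 2) := by ring
    have h5 : y ≤ L * 300 * (2 * Q) ^ 3 * Real.log (y + 2) ^ 3 := by
      calc y ≤ L * 300 * Real.log (x + 2) ^ 3 := h2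
        _ ≤ L * 300 * ((2 * Q) ^ 3 * Real.log (y + 2) ^ 3) :=
            mul_le_mul_of_nonneg_left h4 (by linarith)
        _ = _ := by ring
    have h6 := hb3 y hy0 h5
    have h7 : (A : ℝ) ≤ 120000 ^ 2 * C3 ^ 4 * (a : ℝ) ^ 2 := by
      have h8 : (a : ℝ) ^ 2 ≤ C3 ^ 4 := by
        calc (a : ℝ) ^ 2 = y ^ 4 := by rw [← hyy]; ring
          _ ≤ C3 ^ 4 := pow_le_pow_left₀ hy0 h6 4
      calc (A : ℝ) ≤ 120000 ^ 2 * (a : ℝ) ^ 4 := hA4
        _ = 120000 ^ 2 * (a : ℝ) ^ 2 * (a : ℝ) ^ 2 := by ring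
        _ ≤ 120000 ^ 2 * C3 ^ 4 * (a : ℝ) ^ 2 := by
            apply mul_le_mul_of_nonneg_right _ (by positivity)
            exact mul_le_mul_of_nonneg_left h8 (by norm_num)
    linarith

end Pool.Agent.Lib.MP_6b2d39_agVs
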