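import Pool.Agent.Lib.MP_6b2d39_agVs.CertS
import Pool.Agent.Lib.MP_6b2d39_agVx.WinX
import Pool.Agent.Lib.MP_6b2d39_agVn.FinV
import Pool.Agent.Lib.MP_6b2d39_agUn.AppU
import Pool.Agent.Lib.MP_6b2d39_agUn.Lower
import Pool.Agent.Lib.MP_6b2d39_agHw.Fin

/-!
The window for nine arbitrary multiplicities, all scales.

PROOF. As `win_x` (`Vx/WinX.lean`) with `M := A` and `cert_ns`, `cert_ps`. Case `vd e n ≤ -W`: no lowering is needed, `cert_ns` with `J` = the light points
(index type `Fin h`, `exists_configT`, `general_nonspecial_of_le` as in the case `u = 0` there). Case `vd e n ≥ W`: `upper_u` with `M := A` (`k'` points of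
multiplicity `A` are added, `app_u` with `c = A`); for the new system the sums over `n i ≤ k` (`k ≥ A`) do not become smaller; then `u = vd` simple
points, `cert_ps`. In both cases `mass l (J.filter (l i ≤ k)) ≥ S_k / 2` (`x ^ 2 ≤ 2 (x + 1).choose 2`).
-/

open Polynomial

set_option autoImplicit false

namespace Pool.Agent.Lib.MP_6b2d39_agVs

open Pool.Agent.Lib.MP_6b2d39_ag Pool.Agent.Lib.MP_6b2d39_agHal Pool.Agent.Lib.MP_6b2d39_agVn
  Pool.Agent.Lib.MP_6b2d39_agUn Pool.Agent.Lib.MP_6b2d39_agCr Pool.Agent.Lib.MP_6b2d39_agVx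

open Pool.Agent.Lib.MP_6b2d39_agWin Pool.Agent.Lib.MP_6b2d39_agNw

private theorem winS_split {h : ℕ} (τ : Fin 9 ↪ Fin h) (f : Fin h → ℕ) :
    ∑ l, f l = ∑ i, f (τ i) +
      ∑ l ∈ Finset.univ.filter (fun l => l ∉ Finset.univ.map τ), f l := by
  rw [← Finset.sum_filter_add_sum_filter_not Finset.univ (fun l => l ∈ Finset.univ.map τ) f]
  congr 1
  rw [← Finset.sum_map Finset.univ τ f]
  apply Finset.sum_congr _ (fun _ _ => rfl)
  ext l
  simp

private theorem winS_vd {h e : ℕ} (τ : Fin 9 ↪ Fin h) (n : Fin h → ℕ) :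
    vd e n = (((e + 2).choose 2 : ℕ) : ℤ) - ((∑ i, (n (τ i) + 1).choose 2 : ℕ) : ℤ) -
      ((∑ l ∈ Finset.univ.filter (fun l => l ∉ Finset.univ.map τ), (n l + 1).choose 2 : ℕ) : ℤ) := by
  have h2 := winS_split τ (fun l => (n l + 1).choose 2)
  unfold vd
  have h3 : (∑ i, ((n i + 1).choose 2 : ℤ)) = ((∑ l, (n l + 1).choose 2 : ℕ) : ℤ) := by
    push_cast
    rfl
  rw [h3, h2]
  push_cast
  ring

private theorem winS_all {h u : ℕ} (τ : Fin 9 ↪ Fin h) :
    ((Finset.univ.filter (fun l : Fin h => l ∉ Finset.univ.map τ)).map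
      Function.Embedding.inl) ∪ (Finset.univ : Finset (Fin u)).map Function.Embedding.inr =
      (Finset.univ.filter (fun i : Fin h ⊕ Fin u => ∀ l, i ≠ Sum.inl (τ l))) := by
  ext i
  rw [Finset.mem_union, Finset.mem_map, Finset.mem_map, Finset.mem_filter]
  constructor
  · rintro (⟨l, hl, rfl⟩ | ⟨l, -, rfl⟩)
    · refine ⟨Finset.mem_univ _, fun l' heq => ?_⟩
      rw [Finset.mem_filter] at hl
      apply hl.2
      have h1 : l = τ l' := Sum.inl_injective heq
      rw [h1]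
      exact Finset.mem_map_of_mem τ (Finset.mem_univ l')
    · refine ⟨Finset.mem_univ _, fun l' heq => ?_⟩
      simp at heq
  · rintro ⟨-, hi⟩
    rcases i with l | l
    · left
      refine ⟨l, ?_, rfl⟩
      rw [Finset.mem_filter]
      refine ⟨Finset.mem_univ _, fun hl => ?_⟩
      rw [Finset.mem_map] at hl
      obtain ⟨l', -, h1⟩ := hl
      exact hi l' (by rw [h1])
    · right
      exact ⟨l, Finset.mem_univ _, rfl⟩

private theorem winS_massJ {h u : ℕ} (τ : Fin 9 ↪ Fin h) (n : Fin h → ℕ) :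
    mass (Sum.elim n (fun _ => 1) : Fin h ⊕ Fin u → ℕ)
      ((Finset.univ.filter (fun l : Fin h => l ∉ Finset.univ.map τ)).map
        Function.Embedding.inl) =
      ∑ l ∈ Finset.univ.filter (fun l => l ∉ Finset.univ.map τ), (n l + 1).choose 2 := by
  unfold mass
  rw [Finset.sum_map]
  simp only [Function.Embedding.inl_apply, Sum.elim_inl]

private theorem winS_sq (x : ℕ) : x ^ 2 ≤ 2 * (x + 1).choose 2 := by
  have h : 2 * (x + 1).choose 2 = x * x + x := by
    rw [Nat.choose_two_right, Nat.add_sub_cancel, Nat.mul_div_cancel']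
    · ring
    · exact (Nat.even_mul_pred_self (x + 1)).two_dvd
  rw [h, pow_two]
  omega

/-- the mass of the light points of multiplicity at most `k` -/
private theorem winS_mass {h u : ℕ} (τ : Fin 9 ↪ Fin h) (n : Fin h → ℕ) {Λ k p : ℕ}
    (hk : 360 * k * p ≤ Λ * ∑ i ∈ Finset.univ.filter
        (fun i => i ∉ Finset.univ.map τ ∧ n i ≤ k), n i ^ 2) :
    180 * k * p ≤ Λ * mass (Sum.elim n (fun _ => 1) : Fin h ⊕ Fin u → ℕ)
      (((Finset.univ.filter (fun l : Fin h => l ∉ Finset.univ.map τ)).map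
        Function.Embedding.inl).filter
          (fun i => (Sum.elim n (fun _ => 1) : Fin h ⊕ Fin u → ℕ) i ≤ k)) := by
  have h1 : mass (Sum.elim n (fun _ => 1) : Fin h ⊕ Fin u → ℕ)
      (((Finset.univ.filter (fun l : Fin h => l ∉ Finset.univ.map τ)).map
        Function.Embedding.inl).filter
          (fun i => (Sum.elim n (fun _ => 1) : Fin h ⊕ Fin u → ℕ) i ≤ k)) =
      ∑ i ∈ Finset.univ.filter (fun i => i ∉ Finset.univ.map τ ∧ n i ≤ k),
        (n i + 1).choose 2 := by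
    unfold mass
    rw [Finset.filter_map, Finset.sum_map, Finset.filter_filter]
    rfl
  have h2 : ∑ i ∈ Finset.univ.filter (fun i => i ∉ Finset.univ.map τ ∧ n i ≤ k), n i ^ 2 ≤
      2 * ∑ i ∈ Finset.univ.filter (fun i => i ∉ Finset.univ.map τ ∧ n i ≤ k),
        (n i + 1).choose 2 := by
    rw [Finset.mul_sum]
    exact Finset.sum_le_sum fun i _ => winS_sq (n i)
  rw [h1]
  have h3 := Nat.mul_le_mul_left Λ h2
  have h4 : Λ * (2 * ∑ i ∈ Finset.univ.filter (fun i => i ∉ Finset.univ.map τ ∧ n i ≤ k),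
      (n i + 1).choose 2) = 2 * (Λ * ∑ i ∈ Finset.univ.filter
        (fun i => i ∉ Finset.univ.map τ ∧ n i ≤ k), (n i + 1).choose 2) := by ring
  have h5 : 360 * k * p = 2 * (180 * k * p) := by ring
  omega

private theorem winS_ex {h u k : ℕ} (τ : Fin 9 ↪ Fin h) (n : Fin h → ℕ)
    (hj : ∃ j ∈ (Finset.univ.filter (fun l : Fin h => l ∉ Finset.univ.map τ)).map
      (Function.Embedding.inl : Fin h ↪ Fin h ⊕ Fin u),
      k < (Sum.elim n (fun _ => 1) : Fin h ⊕ Fin u → ℕ) j) :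
    ∃ j, j ∉ Finset.univ.map τ ∧ k < n j := by
  obtain ⟨j, hj, hk⟩ := hj
  rw [Finset.mem_map] at hj
  obtain ⟨l, hl, rfl⟩ := hj
  exact ⟨l, (Finset.mem_filter.1 hl).2, hk⟩

private theorem winS_neg {h e A Λ W : ℕ} {n : Fin h → ℕ} (τ : Fin 9 ↪ Fin h) {a : Fin 10 → ℕ}
    (he : e = dg a) (hτ : ∀ i, n (τ i) = mu a i) (hN : NwX A Λ a W)
    (hm : ∀ k : ℕ, A ≤ k → (∃ j, j ∉ Finset.univ.map τ ∧ k < n j) →
      360 * k * pr a a ≤ Λ * ∑ i ∈ Finset.univ.filter
        (fun i => i ∉ Finset.univ.map τ ∧ n i ≤ k), n i ^ 2)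
    (h1 : vd e n ≤ -(W : ℤ)) :
    ∃ P₀ : Fin h → Fin 3 → ℂ, Module.finrank ℂ (curves e n P₀) ≤ 0 := by
  classical
  have hA : ∑ i, (n (τ i) + 1).choose 2 = ∑ i, (mu a i + 1).choose 2 :=
    Finset.sum_congr rfl fun i _ => by rw [hτ i]
  have hvd := winS_vd (e := e) τ n
  rw [hA] at hvd
  have hmass := winS_massJ (u := 0) τ n
  rw [← hmass] at hvd
  rw [he] at hvd
  obtain ⟨p, x, y, hE⟩ := cert_ns hN (l := (Sum.elim n (fun _ => 1) : Fin h ⊕ Fin 0 → ℕ))
    (J := (Finset.univ.filter (fun l : Fin h => l ∉ Finset.univ.map τ)).map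
        Function.Embedding.inl) (fun k hk hj => winS_mass τ n (hm k hk (winS_ex τ n hj))) (by
      rw [he] at h1
      rw [hvd] at h1
      omega)
  have hm : mu a = fun i => n (τ i) := funext fun i => (hτ i).symm
  rw [hm, ← he] at hE
  have hall := winS_all (u := 0) τ
  have hemp : (Finset.univ : Finset (Fin 0)).map Function.Embedding.inr =
      (∅ : Finset (Fin h ⊕ Fin 0)) := by
    rw [Finset.univ_eq_empty, Finset.map_empty]
  rw [hemp, Finset.union_empty] at hall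
  rw [hall] at hE
  exact exists_configT τ p x y hE

private theorem winS_pos {h e A Λ W : ℕ} {n : Fin h → ℕ} (τ : Fin 9 ↪ Fin h) {a : Fin 10 → ℕ}
    (he : e = dg a) (hτ : ∀ i, n (τ i) = mu a i) (hN : NwX A Λ a W)
    (hm : ∀ k : ℕ, A ≤ k → (∃ j, j ∉ Finset.univ.map τ ∧ k < n j) →
      360 * k * pr a a ≤ Λ * ∑ i ∈ Finset.univ.filter
        (fun i => i ∉ Finset.univ.map τ ∧ n i ≤ k), n i ^ 2)
    (h1 : (W : ℤ) ≤ vd e n) (h2 : vd e n ≤ (W : ℤ) + A ^ 2) :
    General (fun P => (Module.finrank ℂ (curves e n P) : ℤ) = max (vd e n) 0) := by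
  classical
  have hA : ∑ i, (n (τ i) + 1).choose 2 = ∑ i, (mu a i + 1).choose 2 :=
    Finset.sum_congr rfl fun i _ => by rw [hτ i]
  have hW : (0 : ℤ) ≤ W := Int.natCast_nonneg _
  obtain ⟨u, hu⟩ : ∃ u : ℕ, (u : ℤ) = vd e n := ⟨(vd e n).toNat, Int.toNat_of_nonneg (by linarith)⟩
  have hvd := winS_vd (e := e) τ n
  rw [hA] at hvd
  have hmass := winS_massJ (u := u) τ n
  rw [← hmass] at hvd
  have hcard : ((Finset.univ : Finset (Fin u)).map
      (Function.Embedding.inr : Fin u ↪ Fin h ⊕ Fin u)).card = u := by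
    rw [Finset.card_map, Finset.card_univ, Fintype.card_fin]
  obtain ⟨p, x, y, hE⟩ := cert_ps hN (l := (Sum.elim n (fun _ => 1) : Fin h ⊕ Fin u → ℕ))
    (J := (Finset.univ.filter (fun l : Fin h => l ∉ Finset.univ.map τ)).map
        Function.Embedding.inl)
    (Z := (Finset.univ : Finset (Fin u)).map Function.Embedding.inr) (by
      rw [Finset.disjoint_left]
      intro i hi hi'
      rw [Finset.mem_map] at hi hi'
      obtain ⟨a, -, rfl⟩ := hi
      obtain ⟨b, -, hb⟩ := hi'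
      simp at hb) (fun k hk hj => winS_mass τ n (hm k hk (winS_ex τ n hj))) (by
      intro j hj
      rw [Finset.mem_map] at hj
      obtain ⟨l, _, rfl⟩ := hj
      simp only [Function.Embedding.inr_apply, Sum.elim_inr]) (by
      rw [hcard, ← he]
      omega) (by
      rw [hcard]
      omega) (by
      rw [hcard]
      have h3 : (u : ℤ) ≤ (W : ℤ) + A ^ 2 := by linarith
      exact_mod_cast h3)
  have hm : mu a = fun i => n (τ i) := funext fun i => (hτ i).symm
  rw [hm, ← he, winS_all τ] at hE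
  obtain ⟨P₀, hP₀⟩ := exists_configT τ p x y hE
  apply general_nonspecial_of_le P₀
  rw [← hu]
  refine le_trans ?_ (le_max_left _ _)
  exact_mod_cast hP₀

/-- adding points of multiplicity `A` keeps the condition on the light points -/
private theorem winS_app {h A Λ p : ℕ} {n : Fin h → ℕ} (τ : Fin 9 ↪ Fin h) (m : ℕ)
    (hm : ∀ k : ℕ, A ≤ k → (∃ j, j ∉ Finset.univ.map τ ∧ k < n j) →
      360 * k * p ≤ Λ * ∑ i ∈ Finset.univ.filter
        (fun i => i ∉ Finset.univ.map τ ∧ n i ≤ k), n i ^ 2) :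
    ∀ k : ℕ, A ≤ k → (∃ j, j ∉ Finset.univ.map (τ.trans (Fin.castAddEmb m)) ∧
        k < Fin.append n (fun _ : Fin m => A) j) →
      360 * k * p ≤ Λ * ∑ i ∈ Finset.univ.filter
        (fun i => i ∉ Finset.univ.map (τ.trans (Fin.castAddEmb m)) ∧
          Fin.append n (fun _ : Fin m => A) i ≤ k), Fin.append n (fun _ : Fin m => A) i ^ 2 := by
  intro k hk hj
  have hnot : ∀ j : Fin h, j ∉ Finset.univ.map τ →
      Fin.castAdd m j ∉ Finset.univ.map (τ.trans (Fin.castAddEmb m)) := by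
    intro j hj hj'
    apply hj
    rw [Finset.mem_map] at hj' ⊢
    obtain ⟨i, hi, h1⟩ := hj'
    refine ⟨i, hi, ?_⟩
    exact (Fin.castAddEmb m).injective h1
  have hex : ∃ j, j ∉ Finset.univ.map τ ∧ k < n j := by
    obtain ⟨j, hj, hkj⟩ := hj
    induction j using Fin.addCases with
    | left j =>
      rw [Fin.append_left] at hkj
      refine ⟨j, fun hj' => hj ?_, hkj⟩
      rw [Finset.mem_map] at hj' ⊢
      obtain ⟨i, hi, rfl⟩ := hj'
      exact ⟨i, hi, rfl⟩
    | right j =>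
      rw [Fin.append_right] at hkj
      omega
  refine (hm k hk hex).trans (Nat.mul_le_mul_left Λ ?_)
  have h1 : ∑ i ∈ Finset.univ.filter (fun i => i ∉ Finset.univ.map τ ∧ n i ≤ k), n i ^ 2 =
      ∑ i ∈ (Finset.univ.filter (fun i => i ∉ Finset.univ.map τ ∧ n i ≤ k)).map
        (Fin.castAddEmb m), Fin.append n (fun _ : Fin m => A) i ^ 2 := by
    rw [Finset.sum_map]
    refine Finset.sum_congr rfl fun i _ => ?_
    have h2 : Fin.append n (fun _ : Fin m => A) ((Fin.castAddEmb m) i) = n i :=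
      Fin.append_left n (fun _ : Fin m => A) i
    rw [h2]
  rw [h1]
  refine Finset.sum_le_sum_of_subset fun i hi => ?_
  rw [Finset.mem_map] at hi
  obtain ⟨j, hj, rfl⟩ := hi
  obtain ⟨-, hj1, hj2⟩ := Finset.mem_filter.1 hj
  rw [Finset.mem_filter]
  refine ⟨Finset.mem_univ _, hnot j hj1, ?_⟩
  have h2 : Fin.append n (fun _ : Fin m => A) ((Fin.castAddEmb m) j) = n j :=
    Fin.append_left n (fun _ : Fin m => A) j
  rw [h2]
  exact hj2

theorem win_s {h e A Λ W : ℕ} {n : Fin h → ℕ} (τ : Fin 9 ↪ Fin h) {a : Fin 10 → ℕ}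
    (he : e = dg a) (hτ : ∀ i, n (τ i) = mu a i) (hN : NwX A Λ a W)
    (hm : ∀ k : ℕ, A ≤ k → (∃ j, j ∉ Finset.univ.map τ ∧ k < n j) →
      360 * k * pr a a ≤ Λ * ∑ i ∈ Finset.univ.filter
        (fun i => i ∉ Finset.univ.map τ ∧ n i ≤ k), n i ^ 2)
    (hv : (W : ℤ) ≤ |vd e n|) :
    General (fun P => (Module.finrank ℂ (curves e n P) : ℤ) = max (vd e n) 0) := by
  have hW : (0 : ℤ) ≤ W := Int.natCast_nonneg _
  rcases le_abs.1 hv with hv | hv
  · obtain ⟨k, hk1, hk2⟩ := upper_u hN.hM hv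
    refine app_u (k := k) (c := A) n (by linarith) ?_
    refine winS_pos (τ.trans (Fin.castAddEmb k)) he ?_ hN (winS_app τ k hm) hk1 hk2
    intro i
    rw [← hτ i]
    exact Fin.append_left n (fun _ : Fin k => A) (τ i)
  · have hv' : vd e n ≤ -(W : ℤ) := by linarith
    obtain ⟨P₀, hP₀⟩ := winS_neg τ he hτ hN hm hv'
    apply general_nonspecial_of_le P₀
    refine le_trans ?_ (le_max_right _ _)
    exact_mod_cast hP₀

end Pool.Agent.Lib.MP_6b2d39_agVs
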