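import Pool.Agent.Lib.MP_6b2d39_agVs.NineL
import Pool.Agent.Lib.MP_6b2d39_agVs.WinS
import Pool.Agent.Lib.MP_6b2d39_agVs.NumY
import Pool.Agent.Lib.MP_6b2d39_agVx.NumX
import Pool.Agent.Lib.MP_6b2d39_agVn.NineV
import Pool.Agent.Lib.MP_6b2d39_agHal.Ten

/-!
THEOREM V-S: nine arbitrary multiplicities, all scales: exactness and the window.

PROOF. `C0` from `num_x`, `C1` from `num_y C0`, `C = max (160000 C0 + 120000) C1` (or larger). If `C a ^ 2 r ≤ A`: `nine_l`. Otherwise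
`A < 120000 a ^ 2 r` or the second hypothesis holds with `A` large; in both cases (if `120000 a ^ 2 r ≤ A`: `nine_l` again) assume `A ≤ 120000 a ^ 2 r` and
`C (…) ≤ |v|`. `exists_enum` for `S`, `exists_coord`: `e = dg b`, `n (τ i) = mu b i`, `A = pr b b`, `s = 3 e - ∑_S n i = sg b`, `Λ = 400 r`, `hcase` as in `nine_x`
(`Vx/NineX.lean`); `C0 (((400 r) a ^ 2 / A) ^ 2 + a + (A / (400 r)) ^ (3 / 4)) ≤ C ((r a ^ 2 / A) ^ 2 + a + (A / r) ^ (3 / 4))`.
(1) The left side times `log ^ 3` is `< 15 a ^ 2`: `num_x` (`M := a`) gives `W` and the numbers `NwX a Λ b W`; `win_s` (`360 k A ≤ 400 r S_k`).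
(2) Otherwise `|v| ≥ 15 a ^ 2` and `num_y` gives `A ≤ C1 a ^ 2` (`r ^ 2 ≤ A` from `hcase`: `pr b b ≥ Λ ^ 2`). For `j ∉ S`: `n j ≤ mu b 8 = b 9` (`hS2`) and
`b 9 * sg b ≤ pr b b = A` (`gr b 9 = sg b`), `C r ≤ sg b`, so `n j * C r ≤ C1 a ^ 2 ≤ C1 a r` and `n j ≤ a`: `window_ten` (`Hal/Ten.lean`) with `μ = a`.
-/

open Polynomial

set_option autoImplicit false

namespace Pool.Agent.Lib.MP_6b2d39_agVs

open Pool.Agent.Lib.MP_6b2d39_ag Pool.Agent.Lib.MP_6b2d39_agHal Pool.Agent.Lib.MP_6b2d39_agVn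
  Pool.Agent.Lib.MP_6b2d39_agUn Pool.Agent.Lib.MP_6b2d39_agCr Pool.Agent.Lib.MP_6b2d39_agVx

theorem nine_s : ∃ C : ℝ, 120000 ≤ C ∧ ∀ (h e a r A : ℕ) (n : Fin h → ℕ) (S : Finset (Fin h)),
    3 ≤ h → Reduced e n → 1 ≤ a → a ≤ r → S.card = 9 → (∀ j, j ∉ S → ∀ i ∈ S, n j ≤ n i) →
    e ^ 2 = ∑ i ∈ S, n i ^ 2 + A →
    C * r + ((∑ i ∈ S, n i : ℕ) : ℝ) ≤ 3 * e → (∀ i ∈ S, C * r + n i ≤ e) →
    (∀ k : ℕ, a ≤ k → (∃ j, j ∉ S ∧ k < n j) →
      k * A ≤ r * ∑ i ∈ Finset.univ.filter (fun i => i ∉ S ∧ n i ≤ k), n i ^ 2) →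
    (C * (a : ℝ) ^ 2 * r ≤ A ∨
      C * (((r : ℝ) * a ^ 2 / A) ^ 2 + a + ((A : ℝ) / r) ^ (3 / 4 : ℝ)) *
        Real.log ((A : ℝ) / a ^ 2 + 2) ^ 3 ≤ |((vd e n : ℤ) : ℝ)|) →
    General (fun P => (Module.finrank ℂ (curves e n P) : ℤ) = max (vd e n) 0) := by
  classical
  obtain ⟨C0, hC0, hnum⟩ := num_x
  obtain ⟨C1, hC1⟩ := num_y C0
  refine ⟨max (160000 * C0 + 120000) C1, le_trans (by linarith) (le_max_left _ _), ?_⟩
  intro h e a r A n S hh hred ha har hS hS2 hA h3 h4 hk hor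
  obtain ⟨C, hC⟩ : ∃ C : ℝ, C = max (160000 * C0 + 120000) C1 := ⟨_, rfl⟩
  rw [← hC] at h3 h4 hor
  have hCa : 160000 * C0 + 120000 ≤ C := by rw [hC]; exact le_max_left _ _
  have hCb : C1 ≤ C := by rw [hC]; exact le_max_right _ _
  have hC12 : 120000 ≤ C := by linarith
  have hr0 : 1 ≤ r := le_trans ha har
  have hCr : (120000 : ℝ) * r ≤ C * r := mul_le_mul_of_nonneg_right hC12 (Nat.cast_nonneg r)
  have hs0 : 120000 * r + ∑ i ∈ S, n i ≤ 3 * e := by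
    have h1 : (120000 : ℝ) * r + ((∑ i ∈ S, n i : ℕ) : ℝ) ≤ 3 * e := by linarith
    exact_mod_cast h1
  have hg0 : ∀ i ∈ S, 120000 * r + n i ≤ e := by
    intro i hi
    have h1 := h4 i hi
    have h2 : (120000 : ℝ) * r + n i ≤ e := by linarith
    exact_mod_cast h2
  rcases Nat.lt_or_ge A (120000 * a ^ 2 * r) with hAsm | hAbig
  swap
  · exact nine_l hh hred ha har hAbig hS hA (by omega)
      (fun i hi => by have := hg0 i hi; omega) hk
  have hv : C * (((r : ℝ) * a ^ 2 / A) ^ 2 + a + ((A : ℝ) / r) ^ (3 / 4 : ℝ)) *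
        Real.log ((A : ℝ) / a ^ 2 + 2) ^ 3 ≤ |((vd e n : ℤ) : ℝ)| := by
    rcases hor with h1 | h1
    · exfalso
      have h2 : (A : ℝ) < 120000 * (a : ℝ) ^ 2 * r := by exact_mod_cast hAsm
      have h5 : 120000 * ((a : ℝ) ^ 2 * r) ≤ C * ((a : ℝ) ^ 2 * r) :=
        mul_le_mul_of_nonneg_right hC12 (by positivity)
      have h6 : C * (a : ℝ) ^ 2 * r = C * ((a : ℝ) ^ 2 * r) := by ring
      have h7 : 120000 * (a : ℝ) ^ 2 * r = 120000 * ((a : ℝ) ^ 2 * r) := by ring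
      rw [h6] at h1
      rw [h7] at h2
      linarith
    · exact h1
  obtain ⟨τ, hτ, hτS⟩ := exists_enum n hS
  have hsumS : ∀ f : Fin h → ℕ, ∑ i ∈ S, f i = ∑ i, f (τ i) := by
    intro f
    rw [← hτS, Finset.sum_map]
  have hr : n (τ 0) + n (τ 1) + n (τ 2) ≤ e := by
    have h1 := hred ((Fin.castLEEmb (by norm_num : 3 ≤ 9)).trans τ)
    rw [Fin.sum_univ_three] at h1
    exact h1
  obtain ⟨b, heb, hmb⟩ := exists_coord (m := fun i => n (τ i)) hτ hr
  have hmi : ∀ i, n (τ i) = mu b i := fun i => congrFun hmb i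
  have hAa : A = pr b b := by
    have h1 : ∑ i ∈ S, n i ^ 2 = ∑ i, mu b i * mu b i := by
      rw [hsumS (fun i => n i ^ 2)]
      refine Finset.sum_congr rfl fun i _ => ?_
      rw [hmi i]
      ring
    have h2 := pr_eq b b
    rw [h1, heb, pow_two, h2] at hA
    omega
  have hdeg : 3 * e = ∑ i ∈ S, n i + sg b := by
    have h1 := om_deg b
    rw [← heb] at h1
    rw [h1, hsumS n, Finset.sum_congr rfl fun i _ => hmi i]
  have hCsg : C * r ≤ sg b := by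
    have h1 : C * r + ((∑ i ∈ S, n i : ℕ) : ℝ) ≤ ((3 * e : ℕ) : ℝ) := by
      push_cast
      push_cast at h3
      exact h3
    rw [hdeg, Nat.cast_add] at h1
    linarith
  -- the anticanonical degree
  have hsgr : 12000 * r ≤ sg b := by
    have h5 : (12000 : ℝ) * r ≤ sg b := by
      have h6 : (12000 : ℝ) * r ≤ 120000 * r := by
        have : (0 : ℝ) ≤ r := Nat.cast_nonneg r
        linarith
      linarith
    exact_mod_cast h5
  have hgr : 12000 * r + n (τ 0) ≤ e := by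
    have h1 := hg0 (τ 0) (by rw [← hτS]; exact Finset.mem_map_of_mem _ (Finset.mem_univ _))
    omega
  have hcase : (∃ i, i ≠ 1 ∧ i ≠ 9 ∧ 400 * r ≤ b i) ∨ (400 * r ≤ b 1 ∧ 400 * r ≤ b 9) := by
    by_contra hcon
    push Not at hcon
    obtain ⟨hc1, hc2⟩ := hcon
    have k0 := hc1 0 (by decide) (by decide)
    have k2 := hc1 2 (by decide) (by decide)
    have k3 := hc1 3 (by decide) (by decide)
    have k4 := hc1 4 (by decide) (by decide)
    have k5 := hc1 5 (by decide) (by decide)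
    have k6 := hc1 6 (by decide) (by decide)
    have k7 := hc1 7 (by decide) (by decide)
    have k8 := hc1 8 (by decide) (by decide)
    rcases Nat.lt_or_ge (b 1) (400 * r) with k1 | k1
    · have h1 : sg b = 3 * b 0 + 2 * b 1 + 4 * b 2 + 6 * b 3 + 5 * b 4 + 4 * b 5 + 3 * b 6 +
        2 * b 7 + b 8 := rfl
      omega
    · have k9 := hc2 k1
      have h1 : mu b 0 = b 1 + b 2 + b 3 + b 4 + b 5 + b 6 + b 7 + b 8 + b 9 := rfl
      have h2 : dg b = b 0 + b 1 + 2 * b 2 + 3 * (b 3 + b 4 + b 5 + b 6 + b 7 + b 8 + b 9) := rfl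
      have h5 := hmi 0
      omega
  -- the self-intersection
  have hterm : ∀ i, b i * gr b i ≤ A := by
    intro i
    rw [hAa]
    exact Finset.single_le_sum (f := fun j => b j * gr b j) (fun _ _ => Nat.zero_le _)
      (Finset.mem_univ i)
  have hArr : (400 * r) * (400 * r) ≤ A := by
    have hone : ∀ i, 400 * r ≤ b i → 400 * r ≤ gr b i → (400 * r) * (400 * r) ≤ A :=
      fun i h1 h2 => le_trans (Nat.mul_le_mul h1 h2) (hterm i)
    rcases hcase with ⟨i, hi1, hi9, hi⟩ | ⟨h1, h9⟩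
    · refine hone i hi ?_
      fin_cases i
      · show 400 * r ≤ b 0 + b 1 + 2 * b 2 + 3 * (b 3 + b 4 + b 5 + b 6 + b 7 + b 8 + b 9)
        have h5 : 400 * r ≤ b 0 := hi
        omega
      · exact absurd rfl hi1
      · show 400 * r ≤ 2 * b 0 + b 1 + 2 * b 2 + 4 * (b 3 + b 4 + b 5 + b 6 + b 7 + b 8 + b 9)
        have h5 : 400 * r ≤ b 2 := hi
        omega
      · show 400 * r ≤ 3 * b 0 + 2 * b 1 + 4 * b 2 + 6 * (b 3 + b 4 + b 5 + b 6 + b 7 + b 8 + b 9)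
        have h5 : 400 * r ≤ b 3 := hi
        omega
      · show 400 * r ≤ 3 * b 0 + 2 * b 1 + 4 * b 2 + 6 * b 3 + 5 * (b 4 + b 5 + b 6 + b 7 + b 8 + b 9)
        have h5 : 400 * r ≤ b 4 := hi
        omega
      · show 400 * r ≤ 3 * b 0 + 2 * b 1 + 4 * b 2 + 6 * b 3 + 5 * b 4 +
          4 * (b 5 + b 6 + b 7 + b 8 + b 9)
        have h5 : 400 * r ≤ b 5 := hi
        omega
      · show 400 * r ≤ 3 * b 0 + 2 * b 1 + 4 * b 2 + 6 * b 3 + 5 * b 4 + 4 * b 5 +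
          3 * (b 6 + b 7 + b 8 + b 9)
        have h5 : 400 * r ≤ b 6 := hi
        omega
      · show 400 * r ≤ 3 * b 0 + 2 * b 1 + 4 * b 2 + 6 * b 3 + 5 * b 4 + 4 * b 5 + 3 * b 6 +
          2 * (b 7 + b 8 + b 9)
        have h5 : 400 * r ≤ b 7 := hi
        omega
      · show 400 * r ≤ 3 * b 0 + 2 * b 1 + 4 * b 2 + 6 * b 3 + 5 * b 4 + 4 * b 5 + 3 * b 6 +
          2 * b 7 + (b 8 + b 9)
        have h5 : 400 * r ≤ b 8 := hi
        omega
      · exact absurd rfl hi9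
    · refine hone 1 h1 ?_
      show 400 * r ≤ b 0 + b 2 + 2 * (b 3 + b 4 + b 5 + b 6 + b 7 + b 8 + b 9)
      omega
  have hA1 : 1 ≤ A := le_trans (Nat.mul_pos (by omega) (by omega)) hArr
  have hAr2 : r ^ 2 ≤ A := by nlinarith
  -- the two cases
  obtain ⟨l, hl⟩ : ∃ l : ℝ, l = Real.log ((A : ℝ) / a ^ 2 + 2) := ⟨_, rfl⟩
  have hl0 : 0 ≤ l := by
    rw [hl]
    refine Real.log_nonneg ?_
    have h5 : (0 : ℝ) ≤ (A : ℝ) / a ^ 2 := by positivity
    linarith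
  have hle : C0 * ((((400 * r : ℕ) : ℝ) * a ^ 2 / A) ^ 2 + a +
      ((A : ℝ) / ((400 * r : ℕ) : ℝ)) ^ (3 / 4 : ℝ)) * Real.log ((A : ℝ) / a ^ 2 + 2) ^ 3 ≤
      C * (((r : ℝ) * a ^ 2 / A) ^ 2 + a + ((A : ℝ) / r) ^ (3 / 4 : ℝ)) *
      Real.log ((A : ℝ) / a ^ 2 + 2) ^ 3 := by
    rw [← hl]
    refine mul_le_mul_of_nonneg_right ?_ (pow_nonneg hl0 3)
    obtain ⟨X, hX⟩ : ∃ X : ℝ, X = ((r : ℝ) * a ^ 2 / A) ^ 2 := ⟨_, rfl⟩
    obtain ⟨Y, hY⟩ : ∃ Y : ℝ, Y = ((A : ℝ) / r) ^ (3 / 4 : ℝ) := ⟨_, rfl⟩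
    have h5 : (((400 * r : ℕ) : ℝ) * a ^ 2 / A) ^ 2 = 160000 * X := by
      rw [hX]
      push_cast
      ring
    have h6 : ((A : ℝ) / ((400 * r : ℕ) : ℝ)) ^ (3 / 4 : ℝ) ≤ Y := by
      rw [hY]
      refine Real.rpow_le_rpow (by positivity) ?_ (by norm_num)
      refine div_le_div_of_nonneg_left (Nat.cast_nonneg A) (by exact_mod_cast hr0) ?_
      push_cast
      have : (0 : ℝ) ≤ r := Nat.cast_nonneg r
      linarith
    rw [h5, ← hX, ← hY]
    have hX0 : 0 ≤ X := by rw [hX]; positivity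
    have hY0 : 0 ≤ Y := by rw [hY]; positivity
    have hM0 : (0 : ℝ) ≤ a := Nat.cast_nonneg a
    have hC00 : 0 ≤ C0 := by linarith
    have h7 : C0 * (160000 * X + a + ((A : ℝ) / ((400 * r : ℕ) : ℝ)) ^ (3 / 4 : ℝ)) ≤
        C0 * (160000 * (X + a + Y)) := by
      refine mul_le_mul_of_nonneg_left ?_ hC00
      linarith
    have h8 : C0 * (160000 * (X + a + Y)) ≤ C * (X + a + Y) := by
      rw [← mul_assoc]
      refine mul_le_mul_of_nonneg_right ?_ (by linarith)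
      linarith
    exact le_trans h7 h8
  rcases lt_or_ge (C0 * ((((400 * r : ℕ) : ℝ) * a ^ 2 / A) ^ 2 + a +
      ((A : ℝ) / ((400 * r : ℕ) : ℝ)) ^ (3 / 4 : ℝ)) * Real.log ((A : ℝ) / a ^ 2 + 2) ^ 3)
      (15 * (a : ℝ) ^ 2) with hsm | hbig
  · obtain ⟨W, hW1, hW2⟩ := hnum a A (400 * r) ha hA1 (by omega) hsm
    have hWv : (W : ℤ) ≤ |vd e n| := by
      have h5 : (W : ℝ) ≤ |((vd e n : ℤ) : ℝ)| := le_trans hW1 (le_trans hle hv)
      have h6 : ((W : ℤ) : ℝ) ≤ ((|vd e n| : ℤ) : ℝ) := by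
        push_cast
        exact h5
      exact_mod_cast h6
    have hN : NwX a (400 * r) b W :=
      { hM := ha
        hΛ := by omega
        hs := by omega
        hcase := hcase
        num := by
          rw [← hAa]
          exact hW2 }
    refine win_s τ heb hmi hN ?_ hWv
    rw [hτS]
    intro k hka hj
    have h5 := hk k hka hj
    rw [← hAa]
    calc 360 * k * A = 360 * (k * A) := by ring
      _ ≤ 360 * (r * ∑ i ∈ Finset.univ.filter (fun i => i ∉ S ∧ n i ≤ k), n i ^ 2) :=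
          Nat.mul_le_mul_left _ h5
      _ ≤ 400 * (r * ∑ i ∈ Finset.univ.filter (fun i => i ∉ S ∧ n i ≤ k), n i ^ 2) :=
          Nat.mul_le_mul_right _ (by norm_num)
      _ = 400 * r * ∑ i ∈ Finset.univ.filter (fun i => i ∉ S ∧ n i ≤ k), n i ^ 2 := by ring
  · have hAC : (A : ℝ) ≤ C1 * (a : ℝ) ^ 2 := hC1 a r A ha har hAr2 hAsm.le hbig
    have hτ8 : τ 8 ∈ S := by rw [← hτS]; exact Finset.mem_map_of_mem _ (Finset.mem_univ _)
    have hSM : ∀ j, j ∉ S → n j ≤ a := by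
      intro j hj
      have h5 : n j ≤ b 9 := by
        have h6 := hS2 j hj (τ 8) hτ8
        rw [hmi 8] at h6
        exact h6
      have h6 : b 9 * sg b ≤ A := hterm 9
      have h7 : ((b 9 : ℕ) : ℝ) * sg b ≤ A := by exact_mod_cast h6
      have ha0 : (0 : ℝ) < a := by exact_mod_cast (show 0 < a by omega)
      have hr1 : (0 : ℝ) < r := by exact_mod_cast (show 0 < r by omega)
      have har' : (a : ℝ) ≤ r := by exact_mod_cast har
      have hCpos : 0 < C := by linarith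
      have h8 : ((b 9 : ℕ) : ℝ) * (C * r) ≤ C * (a * r) := by
        calc ((b 9 : ℕ) : ℝ) * (C * r) ≤ (b 9 : ℝ) * sg b :=
              mul_le_mul_of_nonneg_left hCsg (Nat.cast_nonneg _)
          _ ≤ A := h7
          _ ≤ C1 * (a : ℝ) ^ 2 := hAC
          _ ≤ C * (a : ℝ) ^ 2 := mul_le_mul_of_nonneg_right hCb (by positivity)
          _ ≤ C * (a * r) := by
              refine mul_le_mul_of_nonneg_left ?_ hCpos.le
              rw [pow_two]
              exact mul_le_mul_of_nonneg_left har' ha0.le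
      have h9 : ((b 9 : ℕ) : ℝ) ≤ a := by
        have h10 : ((b 9 : ℕ) : ℝ) * (C * r) ≤ a * (C * r) := by
          calc ((b 9 : ℕ) : ℝ) * (C * r) ≤ C * (a * r) := h8
            _ = a * (C * r) := by ring
        exact le_of_mul_le_mul_right h10 (mul_pos hCpos hr1)
      have h10 : b 9 ≤ a := by exact_mod_cast h9
      exact le_trans h5 h10
    have hsub : Finset.univ.filter (fun i => a < n i) ⊆ S := by
      intro i hi
      by_contra hcon
      exact absurd (hSM i hcon) (not_le.2 (Finset.mem_filter.1 hi).2)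
    refine window_ten hh hred ha (le_trans (Finset.card_le_card hsub) hS.le) ?_
    have h1 : 15 * (a : ℤ) ^ 2 ≤ |vd e n| := by
      have h2 : ((15 * (a : ℤ) ^ 2 : ℤ) : ℝ) ≤ ((|vd e n| : ℤ) : ℝ) := by
        push_cast
        exact le_trans hbig (le_trans hle hv)
      exact_mod_cast h2
    rcases le_abs.1 h1 with h2 | h2
    · right
      nlinarith [sq_nonneg (a : ℤ)]
    · left
      omega

end Pool.Agent.Lib.MP_6b2d39_agVs
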