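import Pool.Agent.Lib.MP_6b2d39_agVx.FinX
import Pool.Agent.Lib.MP_6b2d39_agVs.NineS

/-!
The numbers of a reduced special system: window and exactness at every scale.
-/

open Polynomial

set_option autoImplicit false

namespace Pool.Agent.Lib.MP_6b2d39_agVs

open Pool.Agent.Lib.MP_6b2d39_ag Pool.Agent.Lib.MP_6b2d39_agHal Pool.Agent.Lib.MP_6b2d39_agVn
  Pool.Agent.Lib.MP_6b2d39_agCr Pool.Agent.Lib.MP_6b2d39_agVx

theorem bad_s : ∃ C : ℝ, ∀ (h e : ℕ) (n : Fin h → ℕ), 3 ≤ h → Reduced e n →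
    ¬ General (fun P => (Module.finrank ℂ (curves e n P) : ℤ) = max (vd e n) 0) →
    ∀ σ : Equiv.Perm (Fin h), Antitone (fun i => n (σ i)) →
      ∃ (i0 i9 : Fin h) (A s μ : ℕ), (i0 : ℕ) = 0 ∧ (i9 : ℕ) = 9 ∧ μ = n (σ i9) ∧ 1 ≤ μ ∧
        e ^ 2 = ∑ i : Fin h, (if (i : ℕ) < 9 then n (σ i) ^ 2 else 0) + A ∧
        3 * e = ∑ i : Fin h, (if (i : ℕ) < 9 then n (σ i) else 0) + s ∧ 1 ≤ s ∧
        e ≤ 3 * A ∧ A < 4000000 * μ ^ 3 ∧
        ∀ a r : ℕ, 1 ≤ a → a ≤ r → C * r ≤ s → C * r + n (σ i0) ≤ e →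
          (∃ k : ℕ, a ≤ k ∧ k < μ ∧
            r * ∑ i ∈ Finset.univ.filter (fun i => n i ≤ k), n i ^ 2 < k * A) ∨
          ((A : ℝ) < C * (a : ℝ) ^ 2 * r ∧ |((vd e n : ℤ) : ℝ)| <
            C * (((r : ℝ) * a ^ 2 / A) ^ 2 + a + ((A : ℝ) / r) ^ (3 / 4 : ℝ)) *
              Real.log ((A : ℝ) / a ^ 2 + 2) ^ 3) := by
  obtain ⟨C1, H1⟩ := bad_y
  obtain ⟨C, hC, H2⟩ := nine_s
  refine ⟨C, fun h e n hh hred hbad σ hσ => ?_⟩
  obtain ⟨i0, i9, A, s, μ, k1, k2, k3, k4, k5, k6, k7, k8, k9, -, -⟩ :=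
    H1 h e n hh hred hbad σ hσ
  have h10 : 10 ≤ h := by have := i9.2; omega
  have h9 : 9 ≤ h := by omega
  obtain ⟨τ, hτ⟩ : ∃ τ : Fin 9 ↪ Fin h, τ = (Fin.castLEEmb h9).trans σ.toEmbedding := ⟨_, rfl⟩
  have hτ1 : ∀ i, τ i = σ (Fin.castLE h9 i) := fun i => by rw [hτ]; rfl
  have hS : (Finset.univ.map τ).card = 9 := by
    rw [Finset.card_map, Finset.card_univ, Fintype.card_fin]
  have hpos : ∀ i, μ ≤ n (τ i) := by
    intro i
    rw [hτ1, k3]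
    apply hσ
    show ((Fin.castLE h9 i : Fin h) : ℕ) ≤ (i9 : ℕ)
    rw [k2]
    have := i.2
    show (i : ℕ) ≤ 9
    omega
  have hl : ∀ j, j ∉ Finset.univ.map τ → n j ≤ μ := by
    intro j hj
    obtain ⟨x, rfl⟩ := σ.surjective j
    rw [k3]
    apply hσ
    show (i9 : ℕ) ≤ (x : ℕ)
    by_contra hcon
    apply hj
    rw [Finset.mem_map]
    refine ⟨⟨x, by omega⟩, Finset.mem_univ _, ?_⟩
    rw [hτ1]
    rfl
  have f1 : ∑ i : Fin h, (if (i : ℕ) < 9 then n (σ i) ^ 2 else 0) = ∑ i, n (τ i) ^ 2 := by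
    rw [fx_sum h9 (fun i => n (σ i) ^ 2)]
    exact Finset.sum_congr rfl fun i _ => by rw [hτ1]
  have f2 : ∑ i : Fin h, (if (i : ℕ) < 9 then n (σ i) else 0) = ∑ i, n (τ i) := by
    rw [fx_sum h9 (fun i => n (σ i))]
    exact Finset.sum_congr rfl fun i _ => by rw [hτ1]
  refine ⟨i0, i9, A, s, μ, k1, k2, k3, k4, k5, k6, k7, k8, k9, ?_⟩
  intro a r ha har hs hg
  by_contra hcon
  rw [not_or] at hcon
  obtain ⟨hc1, hc2⟩ := hcon
  push Not at hc1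
  apply hbad
  refine H2 h e a r A n (Finset.univ.map τ) hh hred ha har hS ?_ ?_ ?_ ?_ ?_ ?_
  · intro j hj i hi
    rw [Finset.mem_map] at hi
    obtain ⟨x, -, rfl⟩ := hi
    exact (hl j hj).trans (hpos x)
  · rw [Finset.sum_map, ← f1]
    exact k5
  · rw [Finset.sum_map, ← f2]
    have h3 : (3 : ℝ) * e = ((∑ i : Fin h, (if (i : ℕ) < 9 then n (σ i) else 0) : ℕ) : ℝ) +
        s := by exact_mod_cast k6
    rw [h3]
    linarith
  · intro i hi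
    rw [Finset.mem_map] at hi
    obtain ⟨j, -, rfl⟩ := hi
    have h3 : n (τ j) ≤ n (σ i0) := by
      rw [hτ1]
      apply hσ
      show (i0 : ℕ) ≤ _
      rw [k1]
      exact Nat.zero_le _
    have h4 : (n (τ j) : ℝ) ≤ n (σ i0) := by exact_mod_cast h3
    linarith
  · rintro k hk ⟨j, hj, hkj⟩
    have h3 : k < μ := lt_of_lt_of_le hkj (hl j hj)
    have h4 : Finset.univ.filter (fun i => i ∉ Finset.univ.map τ ∧ n i ≤ k) =
        Finset.univ.filter (fun i => n i ≤ k) := by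
      refine Finset.filter_congr fun i _ => ⟨fun h => h.2, fun h => ⟨?_, h⟩⟩
      intro hi
      rw [Finset.mem_map] at hi
      obtain ⟨x, -, rfl⟩ := hi
      have := hpos x
      omega
    rw [h4]
    exact hc1 k hk h3
  · by_contra hne
    rw [not_or] at hne
    push Not at hne
    exact hc2 ⟨hne.1, hne.2⟩

end Pool.Agent.Lib.MP_6b2d39_agVs
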