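import Pool.Agent.Lib.MP_6b2d39_agVx.OmX
import Pool.Agent.Lib.MP_6b2d39_agVs.CertL
import Pool.Agent.Lib.MP_6b2d39_agVe.FinE
import Pool.Agent.Lib.MP_6b2d39_agHal.ConfB

/-!
THEOREM V-EX, long rows: reduced systems with nine arbitrary multiplicities and enough small points are nonspecial.

PROOF. `exists_enum` for `S`, `exists_coord`: `e = dg a`, `n (τ i) = mu a i`, `B = pr a a`, `3 e - ∑_S n i = sg a`, `e - n (τ 0) = gr a 1` (as in
`Vn/NineV.lean`). `Λ = 400 r ≥ 400 A`. If all `a i < 400 r` for `i ≠ 9` then `sg a < 30 * 400 r`; if all `a i < 400 r` for `i ≠ 1` then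
`gr a 1 < 17 * 400 r`; so `hcase` holds. `om_x` with `M := A`, `finish_e` with `core_l`; `hlong`: `B ≤ 21 Λ pr a (3 • c) = 8400 r pr a (3 • c)` and
`120000 A ^ 2 r ≤ B`; `hm` of `core_l` for `k ≥ A`, `k < l j` (`j` is a light point): `Λ (2 A + 4 + k) pr a (3 • c) ≤ 7 k * 3 B`,
`42 k B ≤ 42 r S_k ≤ Λ S_k` and `mass` of the filter is at least `S_k / 2` (`x ^ 2 ≤ 2 (x + 1).choose 2`).
-/

open Polynomial

set_option autoImplicit false

namespace Pool.Agent.Lib.MP_6b2d39_agVs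

open Pool.Agent.Lib.MP_6b2d39_ag Pool.Agent.Lib.MP_6b2d39_agWin Pool.Agent.Lib.MP_6b2d39_agNw
  Pool.Agent.Lib.MP_6b2d39_agHal Pool.Agent.Lib.MP_6b2d39_agCr Pool.Agent.Lib.MP_6b2d39_agVn
  Pool.Agent.Lib.MP_6b2d39_agVe Pool.Agent.Lib.MP_6b2d39_agVx

private theorem nineL_case {a : Fin 10 → ℕ} {Λ : ℕ} (h1 : 30 * Λ ≤ sg a)
    (h2 : 30 * Λ + mu a 0 ≤ dg a) (hΛ : 1 ≤ Λ) :
    (∃ i, i ≠ 1 ∧ i ≠ 9 ∧ Λ ≤ a i) ∨ (Λ ≤ a 1 ∧ Λ ≤ a 9) := by
  by_contra hcon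
  rw [not_or] at hcon
  obtain ⟨hc1, hc2⟩ := hcon
  push Not at hc1
  have b0 := hc1 0 (by decide) (by decide)
  have b2 := hc1 2 (by decide) (by decide)
  have b3 := hc1 3 (by decide) (by decide)
  have b4 := hc1 4 (by decide) (by decide)
  have b5 := hc1 5 (by decide) (by decide)
  have b6 := hc1 6 (by decide) (by decide)
  have b7 := hc1 7 (by decide) (by decide)
  have b8 := hc1 8 (by decide) (by decide)
  have e1 : mu a 0 = a 1 + a 2 + a 3 + a 4 + a 5 + a 6 + a 7 + a 8 + a 9 := rfl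
  rw [e1, Pool.Agent.Lib.MP_6b2d39_agVn.dg] at h2
  rw [sg] at h1
  by_cases h3 : Λ ≤ a 1
  · have h4 : a 9 < Λ := by
      by_contra h5
      exact hc2 ⟨h3, not_lt.1 h5⟩
    omega
  · omega

private theorem nineL_choose2 (x : ℕ) : x ^ 2 ≤ 2 * (x + 1).choose 2 := by
  have h1 : 2 * (x + 1).choose 2 = (x + 1) * x := by
    have h2 := Nat.choose_two_right (x + 1)
    rw [h2]
    have h3 : 2 ∣ (x + 1) * (x + 1 - 1) := (Nat.even_mul_pred_self (x + 1)).two_dvd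
    rw [Nat.mul_div_cancel' h3]
    rfl
  rw [h1]
  nlinarith

private theorem nineL_fin {A k r B X Sk m : ℕ} (hA : 1 ≤ A) (hAk : A ≤ k) (hr1 : 1 ≤ r)
    (hX : 400 * r * X ≤ 3 * B) (hm : k * B ≤ r * Sk) (hS : Sk ≤ 2 * m) :
    (2 * A + 4 + k) * X ≤ m := by
  have h2 : 2 * A + 4 + k ≤ 7 * k := by omega
  have h3 : 400 * r * ((2 * A + 4 + k) * X) ≤ 400 * r * m := by
    calc 400 * r * ((2 * A + 4 + k) * X) ≤ 400 * r * (7 * k * X) :=
          Nat.mul_le_mul_left _ (Nat.mul_le_mul_right _ h2)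
      _ = 7 * k * (400 * r * X) := by ring
      _ ≤ 7 * k * (3 * B) := Nat.mul_le_mul_left _ hX
      _ = 21 * (k * B) := by ring
      _ ≤ 21 * (r * Sk) := Nat.mul_le_mul_left _ hm
      _ ≤ 21 * (r * (2 * m)) := Nat.mul_le_mul_left _ (Nat.mul_le_mul_left _ hS)
      _ ≤ 400 * r * m := by nlinarith [Nat.zero_le (r * m)]
  exact Nat.le_of_mul_le_mul_left h3 (by positivity)

private theorem nineL_long {A r B X : ℕ} (hr1 : 1 ≤ r) (hB : 120000 * A ^ 2 * r ≤ B)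
    (hX : B ≤ 21 * (400 * r) * X) : 13 * A ^ 2 ≤ X := by
  have h1 : 8400 * r * (13 * A ^ 2) ≤ 8400 * r * X := by
    calc 8400 * r * (13 * A ^ 2) = 109200 * A ^ 2 * r := by ring
      _ ≤ 120000 * A ^ 2 * r :=
          Nat.mul_le_mul_right _ (Nat.mul_le_mul_right _ (by norm_num))
      _ ≤ B := hB
      _ ≤ 21 * (400 * r) * X := hX
      _ = 8400 * r * X := by ring
  exact Nat.le_of_mul_le_mul_left h1 (by positivity)

private theorem nineL_mass {h u : ℕ} {n : Fin h → ℕ} (τ : Fin 9 ↪ Fin h) {S : Finset (Fin h)}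
    (hτ : Finset.univ.map τ = S) (k : ℕ) :
    ∑ i ∈ Finset.univ.filter (fun i => i ∉ S ∧ n i ≤ k), n i ^ 2 ≤
      2 * mass (Sum.elim n (fun _ => 1) : Fin h ⊕ Fin u → ℕ) ((lp τ u).filter
        (fun i => (Sum.elim n (fun _ => 1) : Fin h ⊕ Fin u → ℕ) i ≤ k)) := by
  classical
  have hsub : (Finset.univ.filter (fun i => i ∉ S ∧ n i ≤ k)).map
      (Function.Embedding.inl : Fin h ↪ Fin h ⊕ Fin u) ⊆ (lp τ u).filter
        (fun i => (Sum.elim n (fun _ => 1) : Fin h ⊕ Fin u → ℕ) i ≤ k) := by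
    intro x hx
    obtain ⟨i, hi, rfl⟩ := Finset.mem_map.1 hx
    obtain ⟨h1, h2⟩ := (Finset.mem_filter.1 hi).2
    refine Finset.mem_filter.2 ⟨?_, h2⟩
    refine Finset.mem_union_left _ (Finset.mem_map.2 ⟨i, ?_, rfl⟩)
    exact Finset.mem_filter.2 ⟨Finset.mem_univ _, by rw [hτ]; exact h1⟩
  have h1 : ∑ i ∈ Finset.univ.filter (fun i => i ∉ S ∧ n i ≤ k), n i ^ 2 ≤
      2 * ∑ x ∈ (Finset.univ.filter (fun i => i ∉ S ∧ n i ≤ k)).map
        (Function.Embedding.inl : Fin h ↪ Fin h ⊕ Fin u),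
          ((Sum.elim n (fun _ => 1) : Fin h ⊕ Fin u → ℕ) x + 1).choose 2 := by
    rw [Finset.sum_map, Finset.mul_sum]
    exact Finset.sum_le_sum fun i _ => nineL_choose2 (n i)
  refine h1.trans (Nat.mul_le_mul_left _ ?_)
  exact Finset.sum_le_sum_of_subset hsub

theorem nine_l {h e A r B : ℕ} {n : Fin h → ℕ} {S : Finset (Fin h)} (hh : 3 ≤ h)
    (hred : Reduced e n) (hA : 1 ≤ A) (hr : A ≤ r) (hB2 : 120000 * A ^ 2 * r ≤ B)
    (hS : S.card = 9) (hB : e ^ 2 = ∑ i ∈ S, n i ^ 2 + B)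
    (hs : 12000 * r + ∑ i ∈ S, n i ≤ 3 * e) (hg : ∀ i ∈ S, 12000 * r + n i ≤ e)
    (hm : ∀ k : ℕ, A ≤ k → (∃ j, j ∉ S ∧ k < n j) →
      k * B ≤ r * ∑ i ∈ Finset.univ.filter (fun i => i ∉ S ∧ n i ≤ k), n i ^ 2) :
    General (fun P => (Module.finrank ℂ (curves e n P) : ℤ) = max (vd e n) 0) := by
  classical
  obtain ⟨τ, hτ, hτS⟩ := exists_enum n hS
  have hsumS : ∀ f : Fin h → ℕ, ∑ i ∈ S, f i = ∑ i, f (τ i) := by
    intro f
    rw [← hτS, Finset.sum_map]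
  have hr3 : n (τ 0) + n (τ 1) + n (τ 2) ≤ e := by
    have h1 := hred ((Fin.castLEEmb (by norm_num : 3 ≤ 9)).trans τ)
    rw [Fin.sum_univ_three] at h1
    exact h1
  obtain ⟨a, hea, hma⟩ := exists_coord (m := fun i => n (τ i)) hτ hr3
  have hmi : ∀ i, n (τ i) = mu a i := fun i => congrFun hma i
  have hBa : B = pr a a := by
    have h1 : ∑ i ∈ S, n i ^ 2 = ∑ i, mu a i * mu a i := by
      rw [hsumS (fun i => n i ^ 2)]
      refine Finset.sum_congr rfl fun i _ => ?_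
      rw [hmi i]
      ring
    have h2 := pr_eq a a
    rw [h1, hea, pow_two, h2] at hB
    omega
  have hdeg : 3 * e = ∑ i, n (τ i) + sg a := by
    have h1 := om_deg a
    rw [← hea] at h1
    rw [h1, Finset.sum_congr rfl fun i _ => hmi i]
  have hr1 : 1 ≤ r := le_trans hA hr
  have hsg : 30 * (400 * r) ≤ sg a := by
    rw [hsumS n] at hs
    omega
  have h0S : τ 0 ∈ S := by
    rw [← hτS]
    exact Finset.mem_map_of_mem τ (Finset.mem_univ _)
  have hg0 : 30 * (400 * r) + mu a 0 ≤ dg a := by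
    have h1 := hg (τ 0) h0S
    rw [hmi 0, hea] at h1
    omega
  have hcase := nineL_case hsg hg0 (by omega : 1 ≤ 400 * r)
  have hsg1 : 1 ≤ sg a := by omega
  obtain ⟨c, a', h9, h1, ha, hs', hQ, hsc, hbig, hlam, hup⟩ :=
    om_x hA (Nat.mul_le_mul_left 400 hr) hsg1 hcase
  have hB3 : 120000 * A ^ 2 * r ≤ pr a a := by
    rw [← hBa]
    exact hB2
  have hlong : 13 * A ^ 2 ≤ pr a (3 • c) := nineL_long hr1 hB3 hup
  refine finish_e τ ?_
  intro u hmass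
  have hmass' : (dg a + 2).choose 2 ≤ ∑ i, (mu a i + 1).choose 2 +
      mass (Sum.elim n (fun _ => 1) : Fin h ⊕ Fin u → ℕ) (lp τ u) := by
    rw [← hea, Finset.sum_congr rfl fun i _ => by rw [← hmi i]]
    exact hmass
  have key := core_l hA h9 h1 ha hs' hQ hsc hbig hlong
    (l := (Sum.elim n (fun _ => 1) : Fin h ⊕ Fin u → ℕ)) (J := lp τ u) ?_ hmass'
  · rw [hma, hea]
    exact key
  · intro k hk hj
    have hj' : ∃ j, j ∉ S ∧ k < n j := by
      obtain ⟨x, hx, hkx⟩ := hj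
      rcases Finset.mem_union.1 hx with hx | hx
      · obtain ⟨i, hi, rfl⟩ := Finset.mem_map.1 hx
        refine ⟨i, ?_, hkx⟩
        rw [← hτS]
        exact (Finset.mem_filter.1 hi).2
      · obtain ⟨i, _, rfl⟩ := Finset.mem_map.1 hx
        have h2 : k < 1 := hkx
        omega
    have h2 := hm k hk hj'
    have h3 := nineL_mass (u := u) (n := n) τ hτS k
    rw [hBa] at h2
    exact nineL_fin hA hk hr1 hlam h2 h3

end Pool.Agent.Lib.MP_6b2d39_agVs
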